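import Pool.Agent.H22.VF.Small

set_option autoImplicit false

open scoped RealInnerProductSpace
open Module

namespace H22VF

variable {E : Type*} [NormedAddCommGroup E] [InnerProductSpace ℝ E]
  [FiniteDimensional ℝ E] (L : Submodule ℤ E) [DiscreteTopology L]

omit [FiniteDimensional ℝ E] in
theorem exists_functional' (W : Submodule ℝ E) (x₀ : E) (h : x₀ ∉ W) :
    ∃ φ : E →ₗ[ℝ] ℝ, φ x₀ = 1 ∧ (∀ w ∈ W, φ w = 0) ∧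
      ∀ x ∈ W ⊔ Submodule.span ℝ {x₀}, x - φ x • x₀ ∈ W := by
  obtain ⟨f, hf1, hf2⟩ := Submodule.exists_dual_map_eq_bot_of_notMem h inferInstance
  have hf3 : ∀ w ∈ W, f w = 0 := fun w hw => by
    have : f w ∈ W.map f := ⟨w, hw, rfl⟩
    rwa [hf2, Submodule.mem_bot] at this
  refine ⟨(f x₀)⁻¹ • f, by simp [hf1], fun w hw => by simp [hf3 w hw], fun x hx => ?_⟩
  obtain ⟨w, hw, y, hy, rfl⟩ := Submodule.mem_sup.1 hx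
  obtain ⟨a, rfl⟩ := Submodule.mem_span_singleton.1 hy
  have : ((f x₀)⁻¹ • f) (w + a • x₀) = a := by
    simp [hf3 w hw, mul_comm a, hf1]
  rw [this, add_sub_cancel_right]
  exact hw

/-- The data attached to a vector `x₀` which is shortest outside of `W`. -/
structure Data (W : Submodule ℝ E) (x₀ : E) (φ : E →ₗ[ℝ] ℝ) (c : ℝ) (g : E) : Prop where
  one : φ x₀ = 1
  zero : ∀ w ∈ W, φ w = 0
  mem : ∀ x ∈ W ⊔ Submodule.span ℝ {x₀}, φ x = 0 → x ∈ W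
  pos : 0 < c
  inv : ∃ m₀ : ℤ, 1 ≤ m₀ ∧ 1 = m₀ * c
  gL : g ∈ L
  gW : g ∈ W ⊔ Submodule.span ℝ {x₀}
  gφ : φ g = c
  gmin : ∀ x ∈ L, x ∈ W ⊔ Submodule.span ℝ {x₀} → φ x = c → ‖g‖ ≤ ‖x‖
  gen : ∀ x ∈ L, x ∈ W ⊔ Submodule.span ℝ {x₀} → ∃ m : ℤ, φ x = m * c ∧ x - m • g ∈ W
  dec : ¬ IsFacet L g → ∃ y z : E, y ∈ L ∧ z ∈ L ∧ y + z = g ∧ ‖y‖ < ‖g‖ ∧ ‖z‖ < ‖g‖ ∧
    ‖x₀‖ ^ 2 ≤ ‖y‖ ^ 2 ∧ ‖x₀‖ ^ 2 ≤ ‖z‖ ^ 2 ∧ ‖y‖ ^ 2 + ‖z‖ ^ 2 ≤ ‖g‖ ^ 2 ∧ y ∉ W ∧ z ∉ W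

theorem core {d : ℕ} (v : Fin d → E) (W : Submodule ℝ E) (hW : Submodule.span ℝ (Set.range v) = W)
    (hv : ∀ j, v j ∈ L) (x₀ : E) (hx₀ : x₀ ∈ L) (hx₀W : x₀ ∉ W)
    (hmin : ∀ x ∈ L, x ∉ W → ‖x₀‖ ≤ ‖x‖) (hvρ : ∀ j, ‖v j‖ ≤ ‖x₀‖) (hd : d ≤ 12) :
    ∃ φ c g, Data L W x₀ φ c g := by
  obtain ⟨φ, hφ1, hφW, hφ⟩ := exists_functional' W x₀ hx₀W
  set W' := W ⊔ Submodule.span ℝ {x₀} with hW'
  have hWW' : W ≤ W' := le_sup_left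
  have hx₀W' : x₀ ∈ W' := (le_sup_right : Submodule.span ℝ {x₀} ≤ W')
    (Submodule.mem_span_singleton_self x₀)
  have hx₀0 : x₀ ≠ 0 := fun h => hx₀W (h ▸ W.zero_mem)
  set ρ := ‖x₀‖ with hρ
  have hρ0 : 0 < ρ := norm_pos_iff.2 hx₀0
  have hρ2 : 0 < ρ ^ 2 := by positivity
  have hmemW : ∀ x ∈ W', φ x = 0 → x ∈ W := fun x hx h => by
    have := hφ x hx
    rwa [h, zero_smul, sub_zero] at this
  have hred : ∀ e ∈ L, e ∈ W' → ∀ u ∈ W', φ u = φ e →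
      ∃ x ∈ L, x ∈ W' ∧ φ x = φ e ∧ ‖x‖ ^ 2 ≤ ‖u‖ ^ 2 + d * 4⁻¹ * ρ ^ 2 := by
    intro e he heW u hu hue
    obtain ⟨x, hxL, hxe, hx⟩ := round_lat L v W hW hv ρ hvρ e u he
      (hmemW _ (W'.sub_mem hu heW) (by rw [map_sub, hue, sub_self]))
    refine ⟨x, hxL, ?_, ?_, hx⟩
    · have := W'.add_mem (hWW' hxe) heW
      rwa [sub_add_cancel] at this
    · have := hφW _ hxe
      rw [map_sub] at this
      linarith
  have hd' : (d : ℝ) ≤ 12 := by exact_mod_cast hd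
  -- a vector with the least positive value
  obtain ⟨e₀, ⟨he₀L, he₀W, he₀0, he₀1⟩, he₀min⟩ : ∃ e₀, (e₀ ∈ L ∧ e₀ ∈ W' ∧ 0 < φ e₀ ∧ φ e₀ ≤ 1) ∧
      ∀ x ∈ L, x ∈ W' → 0 < φ x → φ e₀ ≤ φ x := by
    have hfin : {w : E | (w ∈ L ∧ ‖w‖ ≤ 2 * ρ) ∧ w ∈ W' ∧ 0 < φ w ∧ φ w ≤ 1}.Finite :=
      (finite_ball L (2 * ρ)).subset fun w hw => hw.1
    obtain ⟨e₀, he₀, hm⟩ := hfin.exists_minimalFor (fun y => φ y) _
      ⟨x₀, ⟨hx₀, by linarith⟩, hx₀W', by rw [hφ1]; exact one_pos, hφ1.le⟩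
    refine ⟨e₀, ⟨he₀.1.1, he₀.2.1, he₀.2.2.1, he₀.2.2.2⟩, fun x hx hxW hx0 => ?_⟩
    rcases le_total (φ x) 1 with h1 | h1
    · obtain ⟨x', hx'L, hx'W, hx'φ, hx'⟩ := hred x hx hxW (φ x • x₀) (W'.smul_mem _ hx₀W')
        (by rw [map_smul, hφ1, smul_eq_mul, mul_one])
      have hb : ‖x'‖ ≤ 2 * ρ := by
        rw [← sq_le_sq₀ (norm_nonneg _) (by positivity)]
        rw [norm_smul, mul_pow, Real.norm_eq_abs, sq_abs] at hx'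
        have : φ x ^ 2 ≤ 1 := pow_le_one₀ hx0.le h1
        nlinarith
      have hmem : x' ∈ {w : E | (w ∈ L ∧ ‖w‖ ≤ 2 * ρ) ∧ w ∈ W' ∧ 0 < φ w ∧ φ w ≤ 1} :=
        ⟨⟨hx'L, hb⟩, hx'W, by rw [hx'φ]; exact hx0, by rw [hx'φ]; exact h1⟩
      rw [← hx'φ]
      rcases le_total (φ e₀) (φ x') with h | h
      · exact h
      · exact hm hmem h
    · exact he₀.2.2.2.trans h1
  set c := φ e₀ with hc
  have hint : ∀ x ∈ L, x ∈ W' → ∃ m : ℤ, φ x = m * c ∧ x - m • e₀ ∈ W := by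
    intro x hx hxW
    have hxm : x - ⌊φ x / c⌋ • e₀ ∈ L := L.sub_mem hx (L.smul_mem _ he₀L)
    have hxm' : x - ⌊φ x / c⌋ • e₀ ∈ W' := by
      rw [← Int.cast_smul_eq_zsmul ℝ]
      exact W'.sub_mem hxW (W'.smul_mem _ he₀W)
    have hval : φ (x - ⌊φ x / c⌋ • e₀) = φ x - ⌊φ x / c⌋ * c := by
      rw [map_sub, map_zsmul, zsmul_eq_mul]
    have h1 : (⌊φ x / c⌋ : ℝ) * c ≤ φ x := by
      rw [← le_div_iff₀ he₀0]; exact Int.floor_le _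
    have h2 : φ x < (⌊φ x / c⌋ + 1 : ℝ) * c := by
      rw [← div_lt_iff₀ he₀0]; exact Int.lt_floor_add_one _
    have h0 : φ x - ⌊φ x / c⌋ * c = 0 := by
      by_contra hne
      have hpos : 0 < φ x - ⌊φ x / c⌋ * c := lt_of_le_of_ne (by linarith) (Ne.symm hne)
      have := he₀min _ hxm hxm' (by rw [hval]; exact hpos)
      rw [hval] at this
      linarith
    exact ⟨⌊φ x / c⌋, by linarith, hmemW _ hxm' (by rw [hval, h0])⟩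
  obtain ⟨m₀, hm₀, -⟩ := hint x₀ hx₀ hx₀W'
  rw [hφ1] at hm₀
  -- the shortest vector in the class
  obtain ⟨g, ⟨hgL, hgW, hgφ⟩, hgmin⟩ := exists_min_norm L {x : E | x ∈ L ∧ x ∈ W' ∧ φ x = c}
    (fun x hx => hx.1) ⟨e₀, he₀L, he₀W, rfl⟩
  have hgmin' : ∀ x ∈ L, x ∈ W' → φ x = c → ‖g‖ ≤ ‖x‖ := fun x h1 h2 h3 => hgmin x ⟨h1, h2, h3⟩
  have hg0 : g ≠ 0 := by
    rintro rfl
    rw [map_zero] at hgφ
    exact he₀0.ne hgφ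
  have hm₀1 : 1 ≤ m₀ := by
    by_contra h
    have h1 : (m₀ : ℝ) ≤ 0 := by exact_mod_cast (by omega : m₀ ≤ 0)
    nlinarith
  refine ⟨φ, c, g, hφ1, hφW, hmemW, he₀0, ⟨m₀, hm₀1, hm₀⟩, hgL, hgW, hgφ, hgmin', ?_, ?_⟩
  · intro x hx hxW
    obtain ⟨m, hm1, hm⟩ := hint x hx hxW
    refine ⟨m, hm1, ?_⟩
    have h1 : g - e₀ ∈ W := hmemW _ (W'.sub_mem hgW he₀W) (by rw [map_sub, hgφ, sub_self])
    have h2 := W.smul_mem (m : ℝ) h1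
    rw [Int.cast_smul_eq_zsmul] at h2
    have h3 : x - m • g = (x - m • e₀) - m • (g - e₀) := by rw [smul_sub]; abel
    rw [h3]
    exact W.sub_mem hm h2
  intro hgF
  obtain ⟨y, z, hy, hz, hyz, hyg, hzg, hle⟩ := exists_decomp L g hgL hg0 hgF
  have hyW : y ∉ W := fun h => by
    have hzeq : z = g - y := by rw [← hyz]; abel
    have := hgmin' z hz (hzeq ▸ W'.sub_mem hgW (hWW' h)) (by rw [hzeq, map_sub, hgφ, hφW y h, sub_zero])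
    exact absurd hzg (not_lt.2 this)
  have hzW : z ∉ W := fun h => by
    have hyeq : y = g - z := by rw [← hyz]; abel
    have := hgmin' y hy (hyeq ▸ W'.sub_mem hgW (hWW' h)) (by rw [hyeq, map_sub, hgφ, hφW z h, sub_zero])
    exact absurd hyg (not_lt.2 this)
  exact ⟨y, z, hy, hz, hyz, hyg, hzg, pow_le_pow_left₀ hρ0.le (hmin y hy hyW) 2,
    pow_le_pow_left₀ hρ0.le (hmin z hz hzW) 2, hle, hyW, hzW⟩

omit [FiniteDimensional ℝ E] [DiscreteTopology L] in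
/-- A vector of the class of `g` is at least as long as `g`; the version for congruent vectors. -/
theorem Data.le {L : Submodule ℤ E} {W : Submodule ℝ E} {x₀ : E} {φ : E →ₗ[ℝ] ℝ} {c : ℝ} {g : E}
    (D : Data L W x₀ φ c g) (x : E) (hx : x ∈ L) (hxg : x - g ∈ W) : ‖g‖ ^ 2 ≤ ‖x‖ ^ 2 := by
  have h1 : x = g + (x - g) := by abel
  refine pow_le_pow_left₀ (norm_nonneg _) (D.gmin x hx ?_ ?_) 2
  · rw [h1]
    exact Submodule.add_mem _ D.gW ((le_sup_left : W ≤ _) hxg)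
  · rw [h1, map_add, D.zero _ hxg, add_zero, D.gφ]

end H22VF
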