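import Mathlib

set_option autoImplicit false

open scoped RealInnerProductSpace
open Module

namespace H22VF

variable {E : Type*} [NormedAddCommGroup E] [InnerProductSpace ℝ E]

/-- The intersection of the Voronoi cells of `0` and `v`. -/
def Cell (L : Submodule ℤ E) (v : E) : Set E := {x : E | ∀ w ∈ L, ‖x‖ ≤ ‖x - w‖ ∧ ‖x - v‖ ≤ ‖x - w‖}

/-- `v` is a facet vector of the lattice `L`. -/
def IsFacet (L : Submodule ℤ E) (v : E) : Prop :=
  v ∈ L ∧ v ≠ 0 ∧ finrank ℝ (affineSpan ℝ (Cell L v)).direction = finrank ℝ E - 1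

variable [FiniteDimensional ℝ E] (L : Submodule ℤ E) [DiscreteTopology L]

theorem finite_ball (r : ℝ) : {w : E | w ∈ L ∧ ‖w‖ ≤ r}.Finite := by
  have h : IsClosed (L : Set E) := by
    have : DiscreteTopology L.toAddSubgroup := ‹DiscreteTopology L›
    exact AddSubgroup.isClosed_of_discrete (H := L.toAddSubgroup)
  have h2 := Metric.finite_isBounded_inter_isClosed (K := Metric.closedBall (0 : E) r)
    (s := (L : Set E)) DiscreteTopology.isDiscrete Metric.isBounded_closedBall h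
  refine h2.subset fun w hw => ⟨by simpa using hw.2, hw.1⟩

/-- Induction on the norm in a lattice. -/
theorem norm_induction (P : E → Prop) (h : ∀ v ∈ L, (∀ w ∈ L, ‖w‖ < ‖v‖ → P w) → P v) :
    ∀ v ∈ L, P v := by
  have key : ∀ (k : ℕ) (v : E), v ∈ L → {w : E | w ∈ L ∧ ‖w‖ < ‖v‖}.ncard = k → P v := by
    intro k
    induction k using Nat.strong_induction_on with
    | _ k ih =>
      intro v hv hk
      refine h v hv fun w hw hwv => ?_
      refine ih _ ?_ w hw rfl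
      rw [← hk]
      refine Set.ncard_lt_ncard ?_ ((finite_ball L ‖v‖).subset fun x hx => ⟨hx.1, hx.2.le⟩)
      refine ⟨fun x hx => ⟨hx.1, hx.2.trans hwv⟩, fun hsub => ?_⟩
      exact lt_irrefl _ (hsub (show w ∈ {x : E | x ∈ L ∧ ‖x‖ < ‖v‖} from ⟨hw, hwv⟩)).2
  exact fun v hv => key _ v hv rfl

/-- A uniform margin. -/
theorem exists_margin (v : E) (hv : ∀ y ∈ L, y ≠ 0 → y ≠ v → ⟪y, v - y⟫ < 0) :
    ∃ ε : ℝ, 0 < ε ∧ ∀ y ∈ L, y ≠ 0 → y ≠ v → ‖y‖ ≤ ‖v‖ + 2 → ⟪y, v - y⟫ ≤ -ε := by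
  have hfin : {w : E | w ∈ L ∧ ‖w‖ ≤ ‖v‖ + 2 ∧ w ≠ 0 ∧ w ≠ v}.Finite :=
    (finite_ball L (‖v‖ + 2)).subset fun w hw => ⟨hw.1, hw.2.1⟩
  rcases Set.eq_empty_or_nonempty {w : E | w ∈ L ∧ ‖w‖ ≤ ‖v‖ + 2 ∧ w ≠ 0 ∧ w ≠ v} with he | hne
  · refine ⟨1, one_pos, fun y hy h0 h1 h2 => ?_⟩
    have : y ∈ ({w : E | w ∈ L ∧ ‖w‖ ≤ ‖v‖ + 2 ∧ w ≠ 0 ∧ w ≠ v} : Set E) := ⟨hy, h2, h0, h1⟩
    rw [he] at this
    exact absurd this (Set.notMem_empty y)
  · obtain ⟨m, hm, hmax⟩ := hfin.exists_maximalFor (fun y => ⟪y, v - y⟫) _ hne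
    refine ⟨-⟪m, v - m⟫, neg_pos.2 (hv m hm.1 hm.2.2.1 hm.2.2.2), fun y hy h0 h1 h2 => ?_⟩
    rw [neg_neg]
    rcases le_total ⟪y, v - y⟫ ⟪m, v - m⟫ with h | h
    · exact h
    · exact hmax (show y ∈ _ from ⟨hy, h2, h0, h1⟩) h

theorem half_add_mem (v : E) (_hvL : v ∈ L)
    (hv : ∀ y ∈ L, y ≠ 0 → y ≠ v → ⟪y, v - y⟫ < 0) :
    ∃ δ : ℝ, 0 < δ ∧ ∀ u : E, ⟪v, u⟫ = 0 → ‖u‖ ≤ δ → (2⁻¹ : ℝ) • v + u ∈ Cell L v := by
  obtain ⟨ε, hε, hm⟩ := exists_margin L v hv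
  have hpos : 0 < 2 * (‖v‖ + 2) := by positivity
  refine ⟨min 1 (ε / (2 * (‖v‖ + 2))), lt_min one_pos (div_pos hε hpos), fun u hu hδ w hw => ?_⟩
  have hu1 : ‖u‖ ≤ 1 := hδ.trans (min_le_left _ _)
  have hu2 : ‖u‖ * (2 * (‖v‖ + 2)) ≤ ε := by
    have := hδ.trans (min_le_right _ _)
    rwa [le_div_iff₀ hpos] at this
  have e1 : ‖(2⁻¹ : ℝ) • v + u - v‖ = ‖(2⁻¹ : ℝ) • v + u‖ := by
    have : (2⁻¹ : ℝ) • v + u - v = u - (2⁻¹ : ℝ) • v := by module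
    rw [this, ← sq_eq_sq₀ (norm_nonneg _) (norm_nonneg _), norm_sub_sq_real, norm_add_sq_real,
      inner_smul_left, inner_smul_right, hu, real_inner_comm, hu]
    simp
    ring
  rw [e1, and_self]
  rw [← sq_le_sq₀ (norm_nonneg _) (norm_nonneg _), norm_sub_sq_real]
  have e2 : 2 * ⟪(2⁻¹ : ℝ) • v + u, w⟫ = ⟪w, v - w⟫ + ‖w‖ ^ 2 + 2 * ⟪u, w⟫ := by
    rw [inner_add_left, inner_smul_left, inner_sub_right, real_inner_self_eq_norm_sq,
      real_inner_comm w v]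
    simp
    ring
  have e3 : ⟪u, w⟫ ≤ ‖u‖ * ‖w‖ := real_inner_le_norm u w
  suffices h : ⟪w, v - w⟫ + 2 * ⟪u, w⟫ ≤ 0 by linarith
  by_cases h0 : w = 0
  · simp [h0]
  by_cases h1 : w = v
  · rw [h1, sub_self, inner_zero_right, real_inner_comm, hu]
    simp
  rcases le_or_gt ‖w‖ (‖v‖ + 2) with h2 | h2
  · have := hm w hw h0 h1 h2
    have h3 : ‖u‖ * ‖w‖ ≤ ‖u‖ * (‖v‖ + 2) := mul_le_mul_of_nonneg_left h2 (norm_nonneg _)
    linarith
  · have h4 : ⟪w, v - w⟫ ≤ ‖w‖ * ‖v‖ - ‖w‖ ^ 2 := by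
      rw [inner_sub_right, real_inner_self_eq_norm_sq]
      linarith [real_inner_le_norm w v]
    have h5 : ‖u‖ * ‖w‖ ≤ 1 * ‖w‖ := mul_le_mul_of_nonneg_right hu1 (norm_nonneg _)
    nlinarith [norm_nonneg w, norm_nonneg v]

/-- A lattice vector which has no decomposition into two non-zero lattice vectors with a
non-negative inner product is a facet vector. -/
theorem isFacet_of_forall (v : E) (hvL : v ∈ L) (hv0 : v ≠ 0)
    (hv : ∀ y ∈ L, y ≠ 0 → y ≠ v → ⟪y, v - y⟫ < 0) : IsFacet L v := by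
  refine ⟨hvL, hv0, ?_⟩
  obtain ⟨δ, hδ, hmem⟩ := half_add_mem L v hvL hv
  have hdir : (affineSpan ℝ (Cell L v)).direction = (Submodule.span ℝ {v})ᗮ := by
    rw [direction_affineSpan]
    apply le_antisymm
    · have hx : ∀ x ∈ Cell L v, ⟪v, x⟫ = ‖v‖ ^ 2 / 2 := by
        intro x hx
        have h1 := (hx v hvL).1
        have h2 := (hx 0 L.zero_mem).2
        rw [sub_zero] at h2
        have h3 : ‖x‖ ^ 2 = ‖x - v‖ ^ 2 := by rw [le_antisymm h1 h2]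
        rw [norm_sub_sq_real, real_inner_comm] at h3
        linarith
      rw [vectorSpan, Submodule.span_le]
      rintro _ ⟨x, hx1, y, hy1, rfl⟩
      rw [SetLike.mem_coe, Submodule.mem_orthogonal_singleton_iff_inner_right]
      simp only [vsub_eq_sub]
      rw [inner_sub_right, hx x hx1, hx y hy1, sub_self]
    · intro u hu
      rw [Submodule.mem_orthogonal_singleton_iff_inner_right] at hu
      by_cases hu0 : u = 0
      · rw [hu0]; exact Submodule.zero_mem _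
      have hun : 0 < ‖u‖ := norm_pos_iff.2 hu0
      have hc : (2⁻¹ : ℝ) • v + 0 ∈ Cell L v := hmem 0 (by simp) (by simpa using hδ.le)
      have hc2 : (2⁻¹ : ℝ) • v + (δ / ‖u‖) • u ∈ Cell L v := by
        refine hmem _ (by rw [inner_smul_right, hu, mul_zero]) ?_
        rw [norm_smul, Real.norm_eq_abs, abs_of_pos (div_pos hδ hun), div_mul_cancel₀ _ hun.ne']
      have hv := vsub_mem_vectorSpan ℝ hc2 hc
      simp only [vsub_eq_sub, add_zero, add_sub_cancel_left] at hv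
      have := Submodule.smul_mem _ (‖u‖ / δ) hv
      rwa [smul_smul, div_mul_div_cancel₀ hδ.ne', div_self hun.ne', one_smul] at this
  rw [hdir]
  have h1 := Submodule.finrank_add_finrank_orthogonal (Submodule.span ℝ {v})
  rw [finrank_span_singleton hv0] at h1
  omega

/-- A lattice vector which is not a facet vector decomposes. -/
theorem exists_decomp (v : E) (hvL : v ∈ L) (hv0 : v ≠ 0) (hv : ¬ IsFacet L v) :
    ∃ y z : E, y ∈ L ∧ z ∈ L ∧ y + z = v ∧ ‖y‖ < ‖v‖ ∧ ‖z‖ < ‖v‖ ∧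
      ‖y‖ ^ 2 + ‖z‖ ^ 2 ≤ ‖v‖ ^ 2 := by
  by_contra hcon
  refine hv (isFacet_of_forall L v hvL hv0 fun y hy h0 h1 => ?_)
  by_contra hy2
  rw [not_lt] at hy2
  refine hcon ⟨y, v - y, hy, L.sub_mem hvL hy, by abel, ?_⟩
  have e : ‖v‖ ^ 2 = ‖y‖ ^ 2 + 2 * ⟪y, v - y⟫ + ‖v - y‖ ^ 2 := by
    rw [← norm_add_sq_real]; congr 2; abel
  have p1 : 0 < ‖y‖ := norm_pos_iff.2 h0
  have p2 : 0 < ‖v - y‖ := norm_pos_iff.2 (sub_ne_zero.2 (Ne.symm h1))
  refine ⟨?_, ?_, by linarith⟩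
  · rw [← sq_lt_sq₀ (norm_nonneg _) (norm_nonneg _)]
    nlinarith
  · rw [← sq_lt_sq₀ (norm_nonneg _) (norm_nonneg _)]
    nlinarith

/-- Outside of any subgroup, a lattice vector has a facet vector which is not longer. -/
theorem exists_facet_one (N : Submodule ℤ E) :
    ∀ v ∈ L, v ∉ N → ∃ f, IsFacet L f ∧ f ∉ N ∧ ‖f‖ ≤ ‖v‖ := by
  refine norm_induction L _ fun v hv ih hN => ?_
  by_cases hf : IsFacet L v
  · exact ⟨v, hf, hN, le_rfl⟩
  have hv0 : v ≠ 0 := fun h => hN (h ▸ N.zero_mem)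
  obtain ⟨y, z, hy, hz, hyz, h1, h2, -⟩ := exists_decomp L v hv hv0 hf
  by_cases hyN : y ∈ N
  · have hzN : z ∉ N := fun h => hN (hyz ▸ N.add_mem hyN h)
    obtain ⟨f, a, b, c⟩ := ih z hz h2 hzN
    exact ⟨f, a, b, c.trans h2.le⟩
  · obtain ⟨f, a, b, c⟩ := ih y hy h1 hyN
    exact ⟨f, a, b, c.trans h1.le⟩

/-- The two sided version. -/
theorem exists_facet_two (N₁ N₂ : Submodule ℤ E) (hN : ∀ f, IsFacet L f → f ∈ N₁ ∨ f ∈ N₂) :
    ∀ v ∈ L, v ∉ N₁ → v ∉ N₂ → ∃ f g, IsFacet L f ∧ IsFacet L g ∧ f ∉ N₁ ∧ g ∉ N₂ ∧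
      ‖f‖ ^ 2 + ‖g‖ ^ 2 ≤ ‖v‖ ^ 2 := by
  refine norm_induction L _ fun v hv ih hN₁ hN₂ => ?_
  have hf : ¬ IsFacet L v := fun h => (hN v h).elim hN₁ hN₂
  have hv0 : v ≠ 0 := fun h => hN₁ (h ▸ N₁.zero_mem)
  obtain ⟨y, z, hy, hz, hyz, h1, h2, h3⟩ := exists_decomp L v hv hv0 hf
  by_cases hy1 : y ∈ N₁
  · have hz1 : z ∉ N₁ := fun h => hN₁ (hyz ▸ N₁.add_mem hy1 h)
    by_cases hz2 : z ∈ N₂
    · have hy2 : y ∉ N₂ := fun h => hN₂ (hyz ▸ N₂.add_mem h hz2)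
      obtain ⟨f, a, b, c⟩ := exists_facet_one L N₁ z hz hz1
      obtain ⟨g, a', b', c'⟩ := exists_facet_one L N₂ y hy hy2
      refine ⟨f, g, a, a', b, b', ?_⟩
      have := pow_le_pow_left₀ (norm_nonneg f) c 2
      have := pow_le_pow_left₀ (norm_nonneg g) c' 2
      linarith
    · obtain ⟨f, g, a, b, c, d, e⟩ := ih z hz h2 hz1 hz2
      exact ⟨f, g, a, b, c, d, e.trans (pow_le_pow_left₀ (norm_nonneg _) h2.le 2)⟩
  · by_cases hy2 : y ∈ N₂
    · have hz2 : z ∉ N₂ := fun h => hN₂ (hyz ▸ N₂.add_mem hy2 h)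
      obtain ⟨f, a, b, c⟩ := exists_facet_one L N₁ y hy hy1
      obtain ⟨g, a', b', c'⟩ := exists_facet_one L N₂ z hz hz2
      refine ⟨f, g, a, a', b, b', ?_⟩
      have := pow_le_pow_left₀ (norm_nonneg f) c 2
      have := pow_le_pow_left₀ (norm_nonneg g) c' 2
      linarith
    · obtain ⟨f, g, a, b, c, d, e⟩ := ih y hy h1 hy1 hy2
      exact ⟨f, g, a, b, c, d, e.trans (pow_le_pow_left₀ (norm_nonneg _) h1.le 2)⟩

/-- The vectors of `L` which are shorter than `r`, together with `D`. -/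
def short (D : Submodule ℤ E) (r : ℝ) : Submodule ℤ E :=
  D ⊔ Submodule.span ℤ {w : E | w ∈ L ∧ ‖w‖ < r}

/-- The facet vectors which are not generated by `D` and the shorter lattice vectors. -/
def X (D : Submodule ℤ E) : Set E := {f : E | IsFacet L f ∧ f ∉ short L D ‖f‖}

omit [FiniteDimensional ℝ E] [DiscreteTopology L] in
theorem le_short (D : Submodule ℤ E) (r : ℝ) : D ≤ short L D r := le_sup_left

omit [FiniteDimensional ℝ E] [DiscreteTopology L] in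
theorem mem_short (D : Submodule ℤ E) (r : ℝ) (w : E) (hw : w ∈ L) (h : ‖w‖ < r) :
    w ∈ short L D r := (le_sup_right : _ ≤ short L D r) (Submodule.subset_span ⟨hw, h⟩)

theorem le_sup_span_X (D : Submodule ℤ E) : L ≤ D ⊔ Submodule.span ℤ (X L D) := by
  refine norm_induction L (fun v => v ∈ D ⊔ Submodule.span ℤ (X L D)) fun v hv ih => ?_
  by_contra hN
  obtain ⟨f, hf, hfN, hfv⟩ := exists_facet_one L _ v hv hN
  have hle : short L D ‖f‖ ≤ D ⊔ Submodule.span ℤ (X L D) := by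
    refine sup_le le_sup_left ?_
    rw [Submodule.span_le]
    exact fun w hw => ih w hw.1 (hw.2.trans_le hfv)
  refine hfN ((le_sup_right : _ ≤ D ⊔ Submodule.span ℤ (X L D)) (Submodule.subset_span ⟨hf, ?_⟩))
  exact fun h => hfN (hle h)

theorem inner_le_of_mem_X (D₁ D₂ : Submodule ℤ E) (hD : ∀ f, IsFacet L f → f ∈ D₁ ∨ f ∈ D₂)
    (x y : E) (hx : x ∈ X L D₁) (hy : y ∈ X L D₂) (y' : E) (hy' : y' = y ∨ y' = -y) :
    ⟪x, y'⟫ ≤ 0 := by
  have hx1 : x ∉ D₁ := fun h => hx.2 (le_short L D₁ _ h)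
  have hy2 : y ∉ D₂ := fun h => hy.2 (le_short L D₂ _ h)
  have hx2 : x ∈ D₂ := (hD x hx.1).resolve_left hx1
  have hy1 : y ∈ D₁ := (hD y hy.1).resolve_right hy2
  have hyL : y' ∈ L := by
    rcases hy' with rfl | rfl
    exacts [hy.1.1, L.neg_mem hy.1.1]
  have hyD : y' ∈ D₁ := by
    rcases hy' with rfl | rfl
    exacts [hy1, D₁.neg_mem hy1]
  have hyn : y' ∉ short L D₂ ‖y‖ := by
    rcases hy' with rfl | rfl
    exacts [hy.2, fun h => hy.2 (by simpa using Submodule.neg_mem _ h)]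
  have hnorm : ‖y'‖ = ‖y‖ := by
    rcases hy' with rfl | rfl
    exacts [rfl, norm_neg y]
  have hv1 : y' - x ∉ short L D₁ ‖x‖ := fun h => hx.2 (by
    have := Submodule.sub_mem _ (le_short L D₁ ‖x‖ hyD) h
    simpa using this)
  have hv2 : y' - x ∉ short L D₂ ‖y‖ := fun h => hyn (by
    have := Submodule.add_mem _ h (le_short L D₂ ‖y‖ hx2)
    simpa using this)
  obtain ⟨f, g, hf, hg, hf1, hg1, hle⟩ := exists_facet_two L (short L D₁ ‖x‖) (short L D₂ ‖y‖)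
    (fun f hf => (hD f hf).imp (fun h => le_short L _ _ h) (fun h => le_short L _ _ h))
    (y' - x) (L.sub_mem hyL hx.1.1) hv1 hv2
  have h1 : ‖x‖ ≤ ‖f‖ := by
    by_contra h
    exact hf1 (mem_short L _ _ f hf.1 (not_le.1 h))
  have h2 : ‖y‖ ≤ ‖g‖ := by
    by_contra h
    exact hg1 (mem_short L _ _ g hg.1 (not_le.1 h))
  have h3 := pow_le_pow_left₀ (norm_nonneg x) h1 2
  have h4 := pow_le_pow_left₀ (norm_nonneg y) h2 2
  rw [norm_sub_sq_real, hnorm, real_inner_comm] at hle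
  linarith

/-- If every facet vector lies in `D₁` or in `D₂`, then modulo `D₁` and `D₂` the lattice is
generated by two mutually orthogonal sets of vectors. -/
theorem exists_orthogonal (D₁ D₂ : Submodule ℤ E) (hD : ∀ f, IsFacet L f → f ∈ D₁ ∨ f ∈ D₂) :
    ∃ X Y : Set E, X ⊆ L ∧ Y ⊆ L ∧ (∀ x ∈ X, ∀ y ∈ Y, ⟪x, y⟫ = 0) ∧
      L ≤ D₁ ⊔ Submodule.span ℤ X ∧ L ≤ D₂ ⊔ Submodule.span ℤ Y := by
  refine ⟨X L D₁, X L D₂, fun x hx => hx.1.1, fun y hy => hy.1.1, fun x hx y hy => ?_,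
    le_sup_span_X L D₁, le_sup_span_X L D₂⟩
  have h1 := inner_le_of_mem_X L D₁ D₂ hD x y hx hy y (Or.inl rfl)
  have h2 := inner_le_of_mem_X L D₁ D₂ hD x y hx hy (-y) (Or.inr rfl)
  rw [inner_neg_right] at h2
  linarith

end H22VF
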