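import Pool.Agent.H22.VF.Red

set_option autoImplicit false

open scoped RealInnerProductSpace
open Module

namespace H22VF

variable {E : Type*} [NormedAddCommGroup E] [InnerProductSpace ℝ E] [FiniteDimensional ℝ E]
  {n : ℕ} (L : Submodule ℤ E) [DiscreteTopology L] (b : Basis (Fin n) ℤ L)

omit [FiniteDimensional ℝ E] [DiscreteTopology L] [InnerProductSpace ℝ E] in
theorem det_cast_ne_zero (p : ℕ) [Fact p.Prime] (f : Fin n → L)
    (h : Submodule.span (ZMod p) (Set.range fun i => red L b p (f i)) = ⊤) :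
    ((b.det f : ℤ) : ZMod p) ≠ 0 := by
  have hli : LinearIndependent (ZMod p) fun i => red L b p (f i) :=
    linearIndependent_of_top_le_span_of_card_eq_finrank h.ge (by simp)
  have hu := (Basis.is_basis_iff_det (Pi.basisFun (ZMod p) (Fin n))).1 ⟨hli, h⟩
  have he : (Pi.basisFun (ZMod p) (Fin n)).det (fun i => red L b p (f i)) =
      ((b.det f : ℤ) : ZMod p) := by
    rw [Basis.det_apply, Basis.det_apply, ← eq_intCast (Int.castRingHom (ZMod p)),
      RingHom.map_det]
    congr 1
  rw [← he]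
  exact hu.ne_zero

theorem index_coprime (hs : IsZLattice ℝ L) (m : ℕ) (f : Fin n → L)
    (hm : ∀ p ∈ m.primeFactors, ((b.det f : ℤ) : ZMod p) ≠ 0) (hm0 : m ≠ 0)
    (hdet : b.det f ≠ 0) :
    LinearIndependent ℝ (fun i => (f i : E)) ∧
      (Submodule.span ℤ (Set.range f)).toAddSubgroup.index.Coprime m := by
  have hdR : ((b.ofZLatticeBasis ℝ L).det fun i => (f i : E)) = ((b.det f : ℤ) : ℝ) := by
    rw [Basis.det_apply, Basis.det_apply, ← eq_intCast (Int.castRingHom ℝ), RingHom.map_det]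
    congr 1
    ext i j
    simp [Basis.toMatrix_apply]
  have hli : LinearIndependent ℝ (fun i => (f i : E)) := by
    refine ((Basis.is_basis_iff_det (b.ofZLatticeBasis ℝ L)).2 ?_).1
    rw [hdR]
    exact (Int.cast_ne_zero.2 hdet).isUnit
  refine ⟨hli, ?_⟩
  have hliZ : LinearIndependent ℤ f := by
    have h1 : LinearIndependent ℤ (fun i => (f i : E)) := hli.restrict_scalars (by
      intro x y h
      simpa using h)
    exact LinearIndependent.of_comp L.subtype h1
  have hidx : (Submodule.span ℤ (Set.range f)).toAddSubgroup.index = (b.det f).natAbs := by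
    have h1 := AddSubgroup.index_eq_natAbs_det b (Submodule.span ℤ (Set.range f)).toAddSubgroup
      (Basis.span hliZ)
    rw [h1]
    congr 2
    ext i
    rw [congrArg Subtype.val (Basis.span_apply hliZ i)]
  rw [hidx, Nat.coprime_comm, Nat.coprime_iff_gcd_eq_one]
  by_contra hg
  obtain ⟨p, hp, hpg⟩ := Nat.exists_prime_and_dvd hg
  have hp1 : p ∣ m := hpg.trans (Nat.gcd_dvd_left _ _)
  have hp2 : p ∣ (b.det f).natAbs := hpg.trans (Nat.gcd_dvd_right _ _)
  refine hm p (Nat.mem_primeFactors.2 ⟨hp, hp1, hm0⟩) ?_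
  exact (ZMod.intCast_zmod_eq_zero_iff_dvd _ _).2 (Int.natCast_dvd.2 hp2)

theorem exists_primes (m : ℕ) (h : m.primeFactors.card ≤ 2) :
    ∃ p q : ℕ, p.Prime ∧ q.Prime ∧ m.primeFactors ⊆ {p, q} := by
  have hp : ∀ r ∈ m.primeFactors, r.Prime := fun r hr => Nat.prime_of_mem_primeFactors hr
  interval_cases hc : m.primeFactors.card
  · rw [Finset.card_eq_zero] at hc
    exact ⟨2, 2, Nat.prime_two, Nat.prime_two, by simp [hc]⟩
  · obtain ⟨p, hc⟩ := Finset.card_eq_one.1 hc
    exact ⟨p, p, hp p (by simp [hc]), hp p (by simp [hc]), by simp [hc]⟩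
  · obtain ⟨p, q, _, hc⟩ := Finset.card_eq_two.1 hc
    exact ⟨p, q, hp p (by simp [hc]), hp q (by simp [hc]), by simp [hc]⟩

/-- The main theorem. -/
theorem main (hn : finrank ℝ E = n) (hs : IsZLattice ℝ L) (m : ℕ) (hm0 : m ≠ 0)
    (hm : m.primeFactors.card ≤ 2) :
    ∃ f : Fin n → L, (∀ i, IsFacet L (f i : E)) ∧ LinearIndependent ℝ (fun i => (f i : E)) ∧
      (Submodule.span ℤ (Set.range f)).toAddSubgroup.index.Coprime m := by
  obtain ⟨p, q, hp, hq, hpq⟩ := exists_primes m hm
  have := Fact.mk hp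
  have := Fact.mk hq
  have : Module.Finite ℤ L := ZLattice.module_finite ℝ L
  have : Module.Free ℤ L := ZLattice.module_free ℝ L
  let b : Basis (Fin n) ℤ L := Module.finBasisOfFinrankEq ℤ L (by rw [ZLattice.rank ℝ, hn])
  obtain ⟨f, hf, h1, h2⟩ := exists_common L b hn p q
  have d1 := det_cast_ne_zero L b p f h1
  have d2 := det_cast_ne_zero L b q f h2
  refine ⟨f, hf, index_coprime L b hs m f (fun r hr => ?_) hm0 fun h => d1 (by rw [h]; simp)⟩
  rcases Finset.mem_insert.1 (hpq hr) with rfl | hr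
  · exact d1
  · rw [Finset.mem_singleton] at hr
    subst hr
    exact d2

end H22VF
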