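import Pool.Agent.H22.VF.Last

set_option autoImplicit false

open scoped RealInnerProductSpace
open Module

namespace H22VF

variable {E : Type*} [NormedAddCommGroup E] [InnerProductSpace ℝ E]
  [FiniteDimensional ℝ E] (L : Submodule ℤ E) [DiscreteTopology L]

omit [InnerProductSpace ℝ E] [FiniteDimensional ℝ E] [DiscreteTopology L] in
theorem exists_not_mem [NormedSpace ℝ E] (hs : Submodule.span ℝ (L : Set E) = ⊤)
    (W : Submodule ℝ E) (hW : W ≠ ⊤) : ∃ x ∈ L, x ∉ W := by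
  by_contra hcon
  push Not at hcon
  refine hW (top_le_iff.1 ?_)
  rw [← hs, Submodule.span_le]
  exact fun x hx => hcon x hx

theorem finrank_sup_singleton (W : Submodule ℝ E) (x₀ : E) (hx₀W : x₀ ∉ W) :
    finrank ℝ ↥(W ⊔ Submodule.span ℝ {x₀}) = finrank ℝ W + 1 := by
  have h1 : W < W ⊔ Submodule.span ℝ {x₀} := by
    refine lt_of_le_of_ne le_sup_left fun h => hx₀W ?_
    rw [h]
    exact (le_sup_right : Submodule.span ℝ {x₀} ≤ _) (Submodule.mem_span_singleton_self x₀)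
  have h2 := Submodule.finrank_lt_finrank_of_lt h1
  have h3 := Submodule.finrank_add_le_finrank_add_finrank W (Submodule.span ℝ {x₀})
  have h4 : finrank ℝ (Submodule.span ℝ {x₀}) ≤ 1 :=
    (finrank_span_le_card {x₀}).trans (by simp)
  omega

theorem next (hn : finrank ℝ E ≤ 9) : ∀ {d : ℕ} (v : Fin d → E) (W : Submodule ℝ E)
    (_ : Submodule.span ℝ (Set.range v) = W) (_ : finrank ℝ W = d) (_ : d < finrank ℝ E)
    (_ : ∀ j, v j ∈ L) (x₀ : E) (_ : x₀ ∈ L) (_ : x₀ ∉ W)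
    (_ : ∀ x ∈ L, x ∉ W → ‖x₀‖ ≤ ‖x‖) (_ : ∀ j, ‖v j‖ ≤ ‖x₀‖),
    ∃ x₁ ∈ L, x₁ ∉ W ∧ (∀ x ∈ L, x ∉ W → ‖x₁‖ ≤ ‖x‖) ∧ Succ L W x₁ := by
  intro d v W hW hfr hd hv x₀ hx₀ hx₀W hmin hvρ
  rcases le_or_gt d 6 with h6 | h6
  · exact ⟨x₀, hx₀, hx₀W, hmin, step_small L h6 v W hW hv x₀ hx₀ hx₀W hmin hvρ⟩
  obtain rfl | rfl : d = 7 ∨ d = 8 := by omega
  · exact step_seven L v W hW hv x₀ hx₀ hx₀W hmin hvρ
  · refine ⟨x₀, hx₀, hx₀W, hmin, last L v W hW hv x₀ hx₀ hx₀W hmin hvρ ?_⟩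
    apply Submodule.eq_top_of_finrank_eq
    rw [finrank_sup_singleton W x₀ hx₀W]
    omega

theorem flag (hs : Submodule.span ℝ (L : Set E) = ⊤) (hn : finrank ℝ E ≤ 9) :
    ∀ k : ℕ, k ≤ finrank ℝ E → ∃ v w : Fin k → E, (∀ j, v j ∈ L) ∧ (∀ j, IsFacet L (w j)) ∧
      finrank ℝ (Submodule.span ℝ (Set.range v)) = k ∧
      (∀ j, ∀ x ∈ L, x ∉ Submodule.span ℝ (Set.range v) → ‖v j‖ ≤ ‖x‖) ∧
      ∀ x ∈ L, x ∈ Submodule.span ℝ (Set.range v) → x ∈ Submodule.span ℤ (Set.range w) := by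
  intro k
  induction k with
  | zero =>
    intro _
    refine ⟨Fin.elim0, Fin.elim0, fun j => j.elim0, fun j => j.elim0, by simp, fun j => j.elim0,
      fun x _ hx => ?_⟩
    simp only [Set.range_eq_empty, Submodule.span_empty, Submodule.mem_bot] at hx
    rw [hx]
    exact Submodule.zero_mem _
  | succ k ih =>
    intro hk
    obtain ⟨v, w, hv, hw, hfr, hmin, hgen⟩ := ih (by omega)
    set W := Submodule.span ℝ (Set.range v) with hWdef
    have hWtop : W ≠ ⊤ := by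
      intro h
      rw [h, finrank_top] at hfr
      omega
    obtain ⟨x₁, hx₁L, hx₁W⟩ := exists_not_mem L hs W hWtop
    obtain ⟨x₂, ⟨hx₂L, hx₂W⟩, hx₂min⟩ := exists_min_norm L {x : E | x ∈ L ∧ x ∉ W}
      (fun x hx => hx.1) ⟨x₁, hx₁L, hx₁W⟩
    obtain ⟨x₀, hx₀L, hx₀W, hx₀min, g, hg, hgW, hgen'⟩ := next L hn v W hWdef.symm hfr (by omega)
      hv x₂ hx₂L hx₂W (fun x h1 h2 => hx₂min x ⟨h1, h2⟩) (fun j => hmin j x₂ hx₂L hx₂W)
    have hfr' := finrank_sup_singleton W x₀ hx₀W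
    rw [hfr] at hfr'
    have hspan : Submodule.span ℝ (Set.range (Fin.cons x₀ v : Fin (k + 1) → E)) =
        W ⊔ Submodule.span ℝ {x₀} := by
      rw [Fin.range_cons, Submodule.span_insert, sup_comm]
    refine ⟨Fin.cons x₀ v, Fin.cons g w, ?_, ?_, ?_, ?_, ?_⟩
    · exact Fin.cases hx₀L hv
    · exact Fin.cases hg hw
    · rw [hspan, hfr']
    · rw [hspan]
      intro j x hx hxW
      have hxW' : x ∉ W := fun h => hxW ((le_sup_left : W ≤ _) h)
      revert j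
      exact Fin.cases (hx₀min x hx hxW') (fun j => hmin j x hx hxW')
    · rw [hspan]
      intro x hx hxW
      obtain ⟨m, hm⟩ := hgen' x hx hxW
      have h1 := hgen (x - m • g) (L.sub_mem hx (L.smul_mem m hg.1)) hm
      rw [Fin.range_cons]
      have h2 : x = (x - m • g) + m • g := by abel
      rw [h2]
      exact Submodule.add_mem _ (Submodule.span_mono (Set.subset_insert _ _) h1)
        (Submodule.smul_mem _ _ (Submodule.subset_span (Set.mem_insert _ _)))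

/-- In dimension at most nine every lattice is generated by `n` facet vectors. -/
theorem small (hs : Submodule.span ℝ (L : Set E) = ⊤) (n : ℕ) (hn : finrank ℝ E = n) (h9 : n ≤ 9) :
    ∃ f : Fin n → L, (∀ i, IsFacet L (f i : E)) ∧ LinearIndependent ℝ (fun i => (f i : E)) ∧
      Submodule.span ℤ (Set.range f) = ⊤ := by
  subst hn
  obtain ⟨v, w, -, hw, hfr, -, hgen⟩ := flag L hs h9 _ le_rfl
  have htop : Submodule.span ℝ (Set.range v) = ⊤ := Submodule.eq_top_of_finrank_eq hfr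
  have hL : L ≤ Submodule.span ℤ (Set.range w) := fun x hx =>
    hgen x hx (by rw [htop]; exact Submodule.mem_top)
  refine ⟨fun i => ⟨w i, (hw i).1⟩, hw, ?_, ?_⟩
  · refine linearIndependent_of_top_le_span_of_card_eq_finrank ?_ (by simp)
    rw [← hs, Submodule.span_le]
    intro x hx
    exact Submodule.span_le_restrictScalars ℤ ℝ _ (hL hx)
  · rw [eq_top_iff]
    rintro ⟨x, hx⟩ -
    have h1 := hL hx
    have h2 : Set.range w = L.subtype '' Set.range fun i => (⟨w i, (hw i).1⟩ : L) := by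
      rw [← Set.range_comp]; rfl
    rw [h2, ← Submodule.map_span] at h1
    obtain ⟨y, hy, hyx⟩ := h1
    have : y = ⟨x, hx⟩ := Subtype.ext hyx
    rw [← this]
    exact hy

end H22VF
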