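import Pool.Agent.H22.VF.Tie

set_option autoImplicit false

open scoped RealInnerProductSpace
open Module

namespace H22VF

section Round

variable {E : Type*} [NormedAddCommGroup E] [InnerProductSpace ℝ E]

theorem round_two (X v : E) (f : ℝ) (hf0 : 0 ≤ f) (hf1 : f ≤ 1) :
    ∃ n : ℤ, ‖X + ((n : ℝ) - f) • v‖ ^ 2 ≤ ‖X‖ ^ 2 + f * (1 - f) * ‖v‖ ^ 2 := by
  by_contra hcon
  push Not at hcon
  have hA := hcon 0
  have hB := hcon 1
  rw [norm_add_sq_real, inner_smul_right, norm_smul, mul_pow, Real.norm_eq_abs, sq_abs] at hA hB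
  push_cast at hA hB
  have h1 := mul_le_mul_of_nonneg_left hA.le (by linarith : 0 ≤ 1 - f)
  have h2 := mul_le_mul_of_nonneg_left hB.le hf0
  rcases hf0.eq_or_lt with h | h
  · subst h
    nlinarith
  · have h3 := mul_lt_mul_of_pos_left hB h
    nlinarith

theorem round_odd (X v : E) (n₀ o : ℤ) (ho : Odd o) (ho0 : 0 < o) :
    ∃ n : ℤ, ‖X + ((n : ℝ) - (n₀ : ℝ) / o) • v‖ ^ 2 ≤
      ‖X‖ ^ 2 + 4⁻¹ * (1 - ((o : ℝ) ^ 2)⁻¹) * ‖v‖ ^ 2 := by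
  have hoR : (0 : ℝ) < o := by exact_mod_cast ho0
  have hr0 : 0 ≤ n₀ % o := Int.emod_nonneg _ ho0.ne'
  have hr1 : n₀ % o < o := Int.emod_lt_of_pos _ ho0
  set r := n₀ % o with hr
  have hdiv : (n₀ : ℝ) / o = ((n₀ / o : ℤ) : ℝ) + (r : ℝ) / o := by
    rw [div_eq_iff hoR.ne', add_mul, div_mul_cancel₀ _ hoR.ne']
    have := Int.mul_ediv_add_emod n₀ o
    have h2 : ((o * (n₀ / o) + r : ℤ) : ℝ) = n₀ := by exact_mod_cast this
    push_cast at h2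
    linarith
  obtain ⟨n, hn⟩ := round_two X v ((r : ℝ) / o) (div_nonneg (by exact_mod_cast hr0) hoR.le)
    ((div_le_one hoR).2 (by exact_mod_cast hr1.le))
  refine ⟨n + n₀ / o, ?_⟩
  have e1 : (((n + n₀ / o : ℤ) : ℝ)) - (n₀ : ℝ) / o = (n : ℝ) - (r : ℝ) / o := by
    rw [hdiv]; push_cast; ring
  rw [e1]
  refine hn.trans ?_
  have h1 : (1 : ℤ) ≤ (2 * r - o) ^ 2 := by
    obtain ⟨k, hk⟩ := ho
    have h3 : 2 * r - o ≠ 0 := by omega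
    have := pow_pos (abs_pos.2 h3) 2
    rw [sq_abs] at this
    omega
  have h1R : (1 : ℝ) ≤ (2 * r - o) ^ 2 := by exact_mod_cast h1
  have h2 : (r : ℝ) / o * (1 - (r : ℝ) / o) ≤ 4⁻¹ * (1 - ((o : ℝ) ^ 2)⁻¹) := by
    rw [← sub_nonneg]
    have : 4⁻¹ * (1 - ((o : ℝ) ^ 2)⁻¹) - (r : ℝ) / o * (1 - (r : ℝ) / o) =
        4⁻¹ * (((2 * r - o) ^ 2 - 1) / (o : ℝ) ^ 2) := by
      field_simp
      ring
    rw [this]
    have : 0 ≤ ((2 * (r : ℝ) - o) ^ 2 - 1) := by linarith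
    positivity
  have := mul_le_mul_of_nonneg_right h2 (sq_nonneg ‖v‖)
  linarith

theorem round_gen (κ : ℝ) : ∀ (d : ℕ) (v : Fin d → E) (s : Fin d → ℝ)
    (_ : ∀ j X, ∃ n : ℤ, ‖X + ((n : ℝ) - s j) • v j‖ ^ 2 ≤ ‖X‖ ^ 2 + κ * ‖v j‖ ^ 2) (e : E),
    ∃ n : Fin d → ℤ, ‖e + ∑ j, (n j : ℝ) • v j‖ ^ 2 ≤
      ‖e + ∑ j, s j • v j‖ ^ 2 + κ * ∑ j, ‖v j‖ ^ 2 := by
  intro d
  induction d with
  | zero => intro v s _ e; exact ⟨fun _ => 0, by simp⟩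
  | succ d ih =>
    intro v s h e
    obtain ⟨n₀, h₀⟩ := h 0 (e + ∑ j, s j • v j)
    obtain ⟨n, hn⟩ := ih (fun j => v j.succ) (fun j => s j.succ) (fun j X => h j.succ X)
      (e + (n₀ : ℝ) • v 0)
    refine ⟨Fin.cons n₀ n, ?_⟩
    have e1 : e + ∑ j, s j • v j + ((n₀ : ℝ) - s 0) • v 0 =
        e + (n₀ : ℝ) • v 0 + ∑ j : Fin d, s j.succ • v j.succ := by
      rw [Fin.sum_univ_succ, sub_smul]; abel
    have e2 : e + ∑ j, ((Fin.cons n₀ n : Fin (d + 1) → ℤ) j : ℝ) • v j =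
        e + (n₀ : ℝ) • v 0 + ∑ j : Fin d, (n j : ℝ) • v j.succ := by
      rw [Fin.sum_univ_succ]
      simp only [Fin.cons_zero, Fin.cons_succ]
      abel
    rw [e1] at h₀
    rw [e2, Fin.sum_univ_succ (fun j => ‖v j‖ ^ 2)]
    linarith

end Round

variable {E : Type*} [NormedAddCommGroup E] [InnerProductSpace ℝ E]
  [FiniteDimensional ℝ E] (L : Submodule ℤ E) [DiscreteTopology L]

omit [FiniteDimensional ℝ E] [DiscreteTopology L] in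
/-- Case A: the vectors `v j` generate the lattice in `W`. -/
theorem caseA (v : Fin 8 → E) (W : Submodule ℝ E) (hW : Submodule.span ℝ (Set.range v) = W)
    (hv : ∀ j, v j ∈ L) (ρ : ℝ) (hρ : ∀ j, ‖v j‖ ≤ ρ) (hρ0 : 0 < ρ) (g X : E) (hg : g ∈ L)
    (hmin : ∀ x ∈ L, x - g ∈ W → ‖g‖ ^ 2 ≤ ‖x‖ ^ 2) (o : ℤ) (ho : Odd o) (ho3 : 3 ≤ o)
    (hX : ∃ n : Fin 8 → ℤ, X - o • g = ∑ j, n j • v j)
    (h1 : ρ ^ 2 ≤ ‖X‖ ^ 2) (h2 : ‖X‖ ^ 2 + ρ ^ 2 ≤ ‖g‖ ^ 2) : False := by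
  obtain ⟨n, hn⟩ := hX
  have hoR : (0 : ℝ) < o := by exact_mod_cast (by omega : (0 : ℤ) < o)
  obtain ⟨m, hm⟩ := round_gen (4⁻¹ * (1 - ((o : ℝ) ^ 2)⁻¹)) 8 v (fun j => (n j : ℝ) / o)
    (fun j Y => round_odd Y (v j) (n j) o ho (by omega)) g
  have e1 : g + ∑ j, ((n j : ℝ) / o) • v j = (o : ℝ)⁻¹ • X := by
    have h3 : ∑ j, ((n j : ℝ) / o) • v j = (o : ℝ)⁻¹ • (X - o • g) := by
      rw [hn, Finset.smul_sum]
      refine Finset.sum_congr rfl fun j _ => ?_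
      rw [← Int.cast_smul_eq_zsmul ℝ, smul_smul, div_eq_inv_mul]
    rw [h3, smul_sub, ← Int.cast_smul_eq_zsmul ℝ, smul_smul, inv_mul_cancel₀ hoR.ne', one_smul]
    abel
  have h4 : ‖g‖ ^ 2 ≤ ‖g + ∑ j, (m j : ℝ) • v j‖ ^ 2 := by
    refine hmin _ (L.add_mem hg (L.sum_mem fun j _ => ?_)) ?_
    · rw [Int.cast_smul_eq_zsmul]
      exact L.smul_mem _ (hv j)
    · rw [add_sub_cancel_left, ← hW]
      exact Submodule.sum_mem _ fun j _ => Submodule.smul_mem _ _ (Submodule.subset_span ⟨j, rfl⟩)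
  have h5 : ∑ j, ‖v j‖ ^ 2 ≤ 8 * ρ ^ 2 := by
    have : ∑ j, ‖v j‖ ^ 2 ≤ ∑ _j : Fin 8, ρ ^ 2 :=
      Finset.sum_le_sum fun j _ => pow_le_pow_left₀ (norm_nonneg _) (hρ j) 2
    simpa using this
  have hι0 : 0 < ((o : ℝ) ^ 2)⁻¹ := by positivity
  have hι1 : ((o : ℝ) ^ 2)⁻¹ ≤ 1 := by
    refine inv_le_one_of_one_le₀ ?_
    have : (3 : ℝ) ≤ o := by exact_mod_cast ho3
    nlinarith
  rw [e1, norm_smul, mul_pow, Real.norm_eq_abs, sq_abs, inv_pow] at hm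
  set ι := ((o : ℝ) ^ 2)⁻¹
  have h6 : 4⁻¹ * (1 - ι) * ∑ j, ‖v j‖ ^ 2 ≤ 4⁻¹ * (1 - ι) * (8 * ρ ^ 2) :=
    mul_le_mul_of_nonneg_left h5 (mul_nonneg (by norm_num) (by linarith))
  have h7 : (1 - ι) * ρ ^ 2 ≤ (1 - ι) * ‖X‖ ^ 2 := mul_le_mul_of_nonneg_left h1 (by linarith)
  have h8 : 0 < ι * ρ ^ 2 := by positivity
  nlinarith

omit [FiniteDimensional ℝ E] [DiscreteTopology L] in
/-- Case B: the vectors `v j` do not generate the lattice in `W`. -/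
theorem caseB (v : Fin 8 → E) (W : Submodule ℝ E) (hW : Submodule.span ℝ (Set.range v) = W)
    (hv : ∀ j, v j ∈ L) (ρ : ℝ) (hρ : ∀ j, ‖v j‖ ≤ ρ) (hρ0 : 0 < ρ) (g X : E) (hg : g ∈ L)
    (hmin : ∀ x ∈ L, x - g ∈ W → ‖g‖ ^ 2 ≤ ‖x‖ ^ 2) (o : ℤ) (ho3 : 3 ≤ o)
    (hX : X - o • g ∈ W) (x : E) (hx : x ∈ L) (s : Fin 8 → ℝ) (hxs : x = ∑ j, s j • v j)
    (i : Fin 8) (hi : ∀ m : ℤ, s i ≠ m)
    (h1 : ρ ^ 2 ≤ ‖X‖ ^ 2) (h2 : ‖X‖ ^ 2 + ρ ^ 2 ≤ ‖g‖ ^ 2) : False := by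
  have hoR3 : (3 : ℝ) ≤ o := by exact_mod_cast ho3
  have hoR : (0 : ℝ) < o := by linarith
  set δ := s i - round (s i) with hδ
  have hδ0 : δ ≠ 0 := sub_ne_zero.2 (hi _)
  have hδ2 : δ ^ 2 ≤ 4⁻¹ := by
    have := abs_sub_round (s i)
    rw [← sq_abs]
    nlinarith [abs_nonneg (s i - round (s i))]
  have hviW : v i ∈ W := by rw [← hW]; exact Submodule.subset_span ⟨i, rfl⟩
  have hxW : x ∈ W := by
    rw [hxs, ← hW]
    exact Submodule.sum_mem _ fun j _ => Submodule.smul_mem _ _ (Submodule.subset_span ⟨j, rfl⟩)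
  set w := x - round (s i) • v i with hw
  have hwL : w ∈ L := L.sub_mem hx (L.smul_mem _ (hv i))
  have hwW : w ∈ W := by
    rw [hw, ← Int.cast_smul_eq_zsmul ℝ]
    exact W.sub_mem hxW (W.smul_mem _ hviW)
  have hwe : w = δ • v i + ∑ j, s (i.succAbove j) • v (i.succAbove j) := by
    rw [hw, hxs, Fin.sum_univ_succAbove _ i, hδ, sub_smul, Int.cast_smul_eq_zsmul]
    abel
  have huW : (o : ℝ)⁻¹ • X - g ∈ W := by
    have : (o : ℝ)⁻¹ • X - g = (o : ℝ)⁻¹ • (X - o • g) := by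
      rw [smul_sub, ← Int.cast_smul_eq_zsmul ℝ, smul_smul, inv_mul_cancel₀ hoR.ne', one_smul]
    rw [this]
    exact W.smul_mem _ hX
  obtain ⟨t, ht⟩ : ∃ t : Fin 8 → ℝ, ∑ j, t j • v j = (o : ℝ)⁻¹ • X - g := by
    rw [← hW, Submodule.mem_span_range_iff_exists_fun] at huW
    exact huW
  obtain ⟨h, hh⟩ := round_one ((o : ℝ)⁻¹ • X) (δ • v i) (t i / δ)
  obtain ⟨x', hx'L, hx'e, hx'⟩ := round_except L v W hW hv ρ hρ i (g + h • w)
    ((o : ℝ)⁻¹ • X + ((h : ℝ) - t i / δ) • (δ • v i)) (L.add_mem hg (L.smul_mem _ hwL))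
    ⟨fun j => t (i.succAbove j) - h * s (i.succAbove j), by
      have e1 := Fin.sum_univ_succAbove (fun j => t j • v j) i
      rw [ht] at e1
      have e2 : (o : ℝ)⁻¹ • X = g + (t i • v i + ∑ j, t (i.succAbove j) • v (i.succAbove j)) := by
        rw [← e1]; abel
      have e3 : ((h : ℝ) - t i / δ) • (δ • v i) = (h * δ) • v i - t i • v i := by
        rw [smul_smul, sub_mul, div_mul_cancel₀ _ hδ0, sub_smul]
      have e4 : h • w = (h * δ) • v i + ∑ j, (h * s (i.succAbove j)) • v (i.succAbove j) := by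
        rw [hwe, ← Int.cast_smul_eq_zsmul ℝ, smul_add, smul_smul, Finset.smul_sum]
        simp only [smul_smul]
      rw [e2, e3, e4]
      simp only [sub_smul, Finset.sum_sub_distrib]
      abel⟩
  have hx'g : x' - g ∈ W := by
    have : x' - g = (x' - (g + h • w)) + h • w := by abel
    rw [this]
    refine W.add_mem hx'e ?_
    rw [← Int.cast_smul_eq_zsmul ℝ]
    exact W.smul_mem _ hwW
  have h3 := (hmin x' hx'L hx'g).trans hx'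
  have h4 : ‖δ • v i‖ ^ 2 ≤ 4⁻¹ * ρ ^ 2 := by
    rw [norm_smul, mul_pow, Real.norm_eq_abs, sq_abs]
    exact mul_le_mul hδ2 (pow_le_pow_left₀ (norm_nonneg _) (hρ i) 2) (sq_nonneg _) (by norm_num)
  rw [norm_smul ((o : ℝ)⁻¹), mul_pow, Real.norm_eq_abs, sq_abs] at hh
  have h5 : ((o : ℝ)⁻¹) ^ 2 ≤ 9⁻¹ := by
    rw [inv_pow]
    exact inv_anti₀ (by norm_num) (by nlinarith)
  have h6 : ((o : ℝ)⁻¹) ^ 2 * ‖X‖ ^ 2 ≤ 9⁻¹ * ‖X‖ ^ 2 := mul_le_mul_of_nonneg_right h5 (sq_nonneg _)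
  have h7 : 0 < ρ ^ 2 := by positivity
  push_cast at h3
  linarith

/-- The last step in dimension nine. -/
theorem last (v : Fin 8 → E) (W : Submodule ℝ E) (hW : Submodule.span ℝ (Set.range v) = W)
    (hv : ∀ j, v j ∈ L) (x₀ : E) (hx₀ : x₀ ∈ L) (hx₀W : x₀ ∉ W)
    (hmin : ∀ x ∈ L, x ∉ W → ‖x₀‖ ≤ ‖x‖) (hvρ : ∀ j, ‖v j‖ ≤ ‖x₀‖)
    (htop : W ⊔ Submodule.span ℝ {x₀} = ⊤) : Succ L W x₀ := by
  obtain ⟨φ, c, g, D⟩ := core L v W hW hv x₀ hx₀ hx₀W hmin hvρ (by norm_num)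
  refine ⟨g, ?_, D.gW, fun x hx hxW => by
      obtain ⟨m, -, hm⟩ := D.gen x hx hxW
      exact ⟨m, hm⟩⟩
  by_contra hg
  have htop' : ∀ x : E, x ∈ W ⊔ Submodule.span ℝ {x₀} := fun x => by rw [htop]; exact Submodule.mem_top
  have hx₀0 : x₀ ≠ 0 := fun h => hx₀W (h ▸ W.zero_mem)
  set ρ := ‖x₀‖ with hρ
  have hρ0 : 0 < ρ := norm_pos_iff.2 hx₀0
  obtain ⟨y, z, hy, hz, hyz, hyg, hzg, hyρ, hzρ, hle, hyW, hzW⟩ := D.dec hg
  have key2 : ∀ (X : E) (o : ℤ), X ∈ L → Odd o → 3 ≤ o → φ X = o * c → ρ ^ 2 ≤ ‖X‖ ^ 2 →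
      ‖X‖ ^ 2 + ρ ^ 2 ≤ ‖g‖ ^ 2 → False := by
    intro X o hXL ho ho3 hXφ h1 h2
    have hXg : X - o • g ∈ W := D.mem _ (htop' _) (by
      rw [map_sub, map_zsmul, zsmul_eq_mul, D.gφ, hXφ, sub_self])
    have hXgL : X - o • g ∈ L := L.sub_mem hXL (L.smul_mem _ D.gL)
    by_cases hA : ∀ x ∈ L, x ∈ W → ∃ n : Fin 8 → ℤ, x = ∑ j, n j • v j
    · exact caseA L v W hW hv ρ hvρ hρ0 g X D.gL (fun x hx hxg => D.le x hx hxg) o ho ho3
        (hA _ hXgL hXg) h1 h2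
    · push Not at hA
      obtain ⟨x, hx, hxW, hxn⟩ := hA
      obtain ⟨s, hs⟩ : ∃ s : Fin 8 → ℝ, ∑ j, s j • v j = x := by
        rw [← hW, Submodule.mem_span_range_iff_exists_fun] at hxW
        exact hxW
      have hi : ∃ i, ∀ m : ℤ, s i ≠ m := by
        by_contra hcon
        push Not at hcon
        choose m hm using hcon
        refine hxn m ?_
        rw [← hs]
        exact Finset.sum_congr rfl fun j _ => by rw [hm j, Int.cast_smul_eq_zsmul]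
      obtain ⟨i, hi⟩ := hi
      exact caseB L v W hW hv ρ hvρ hρ0 g X D.gL (fun x hx hxg => D.le x hx hxg) o ho3 hXg x hx s
        hs.symm i hi h1 h2
  have key : ∀ (y z : E) (j : ℤ), y ∈ L → z ∈ L → y + z = g → ‖z‖ < ‖g‖ → ρ ^ 2 ≤ ‖y‖ ^ 2 →
      ρ ^ 2 ≤ ‖z‖ ^ 2 → ‖y‖ ^ 2 + ‖z‖ ^ 2 ≤ ‖g‖ ^ 2 → φ y = j * c → 2 ≤ j → False := by
    intro y z j hy hz hyz hzg hyρ hzρ hle hφy hj
    have hφz : φ z = c - j * c := by rw [← hφy, ← D.gφ, ← hyz, map_add]; ring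
    rcases hj.eq_or_lt with h | h
    · have := D.gmin (-z) (L.neg_mem hz) (htop' _) (by
        rw [map_neg, hφz, ← h]; push_cast; ring)
      rw [norm_neg] at this
      linarith
    · rcases Int.even_or_odd j with he | ho
      · have h4 : 4 ≤ j := by obtain ⟨k, hk⟩ := he; omega
        refine key2 (-z) (j - 1) (L.neg_mem hz) (he.sub_odd odd_one) (by omega) ?_ ?_ ?_
        · rw [map_neg, hφz]; push_cast; ring
        · rw [norm_neg]; exact hzρ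
        · rw [norm_neg]; linarith
      · exact key2 y j hy ho (by omega) hφy hyρ (by linarith)
  obtain ⟨j, hj, -⟩ := D.gen y hy (htop' y)
  have hj0 : j ≠ 0 := fun h => hyW (D.mem y (htop' y) (by rw [hj, h]; simp))
  have hj1 : j ≠ 1 := fun h => hzW (D.mem z (htop' z) (by
    have hzeq : z = g - y := by rw [← hyz]; abel
    rw [hzeq, map_sub, D.gφ, hj, h]; simp))
  rcases lt_or_ge j 2 with h | h
  · refine key z y (1 - j) hz hy (by rw [add_comm]; exact hyz) hyg hzρ hyρ (by linarith) ?_ (by omega)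
    have hzeq : z = g - y := by rw [← hyz]; abel
    rw [hzeq, map_sub, D.gφ, hj]
    push_cast
    ring
  · exact key y z j hy hz hyz hzg hyρ hzρ hle hj h

end H22VF
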