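import Mathlib

set_option autoImplicit false

open Module

namespace H22VF

section Rank

variable {ι : Type*} [DecidableEq ι]

/-- Rank functions of matroids. -/
structure IsRank (r : Finset ι → ℕ) : Prop where
  empty : r ∅ = 0
  mono : ∀ A B, A ⊆ B → r A ≤ r B
  le_one : ∀ e, r {e} ≤ 1
  submod : ∀ A B, r (A ∪ B) + r (A ∩ B) ≤ r A + r B

theorem IsRank.eq_zero {r : Finset ι → ℕ} (hr : IsRank r) (A : Finset ι)
    (h : ∀ e ∈ A, r {e} = 0) : r A = 0 := by
  induction A using Finset.induction_on with
  | empty => exact hr.empty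
  | insert e A _ ih =>
    have h1 := hr.submod {e} A
    rw [ih fun x hx => h x (Finset.mem_insert_of_mem hx), h e (Finset.mem_insert_self e A)] at h1
    rw [Finset.insert_eq]
    omega

theorem IsRank.contract {r : Finset ι → ℕ} (hr : IsRank r) (e : ι) (he : r {e} = 1) :
    IsRank fun A => r (insert e A) - 1 := by
  have h1 : ∀ A, 1 ≤ r (insert e A) := fun A => by
    rw [← he]
    exact hr.mono _ _ (by simp)
  refine ⟨by simp [he], fun A B h => ?_, fun x => ?_, fun A B => ?_⟩
  · have := hr.mono _ _ (Finset.insert_subset_insert e h)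
    omega
  · have h2 := hr.submod {e} {x}
    have h3 := hr.le_one x
    rw [← Finset.insert_eq] at h2
    omega
  · have h2 := hr.submod (insert e A) (insert e B)
    have e1 : insert e A ∪ insert e B = insert e (A ∪ B) := by
      ext x; simp only [Finset.mem_union, Finset.mem_insert]; tauto
    have e2 : insert e A ∩ insert e B = insert e (A ∩ B) := by
      ext x; simp only [Finset.mem_inter, Finset.mem_insert]; tauto
    rw [e1, e2] at h2
    have a1 := h1 A
    have a2 := h1 B
    have a3 := h1 (A ∪ B)
    have a4 := h1 (A ∩ B)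
    omega

/-- The matroid intersection theorem. -/
theorem intersection : ∀ (n : ℕ) (S : Finset ι) (k : ℕ) (r₁ r₂ : Finset ι → ℕ), S.card = n →
    IsRank r₁ → IsRank r₂ → (∀ A ⊆ S, k ≤ r₁ A + r₂ (S \ A)) →
    ∃ I ⊆ S, I.card = k ∧ r₁ I = k ∧ r₂ I = k := by
  intro n
  induction n with
  | zero =>
    intro S k r₁ r₂ hS h1 h2 h
    rw [Finset.card_eq_zero] at hS
    subst hS
    have := h ∅ (Finset.Subset.refl _)
    rw [Finset.sdiff_self, h1.empty, h2.empty] at this
    have hk : k = 0 := by omega
    subst hk
    exact ⟨∅, Finset.Subset.refl _, Finset.card_empty, h1.empty, h2.empty⟩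
  | succ n ih =>
    intro S k r₁ r₂ hS h1 h2 h
    by_cases hall : ∀ e ∈ S, r₁ {e} = 0 ∨ r₂ {e} = 0
    · have a1 : r₁ (S.filter fun e => r₁ {e} = 0) = 0 :=
        h1.eq_zero _ fun e he => (Finset.mem_filter.1 he).2
      have a2 : r₂ (S \ S.filter fun e => r₁ {e} = 0) = 0 := by
        refine h2.eq_zero _ fun e he => ?_
        rw [Finset.mem_sdiff, Finset.mem_filter] at he
        exact (hall e he.1).resolve_left fun h' => he.2 ⟨he.1, h'⟩
      have := h _ (Finset.filter_subset (fun e => r₁ {e} = 0) S)
      rw [a1, a2] at this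
      have hk : k = 0 := by omega
      subst hk
      exact ⟨∅, Finset.empty_subset _, Finset.card_empty, h1.empty, h2.empty⟩
    push Not at hall
    obtain ⟨e, he, e1, e2⟩ := hall
    have e1 : r₁ {e} = 1 := by have := h1.le_one e; omega
    have e2 : r₂ {e} = 1 := by have := h2.le_one e; omega
    have hc : (S.erase e).card = n := by rw [Finset.card_erase_of_mem he, hS]; rfl
    by_cases hdel : ∀ A ⊆ S.erase e, k ≤ r₁ A + r₂ (S.erase e \ A)
    · obtain ⟨I, hI, hh⟩ := ih (S.erase e) k r₁ r₂ hc h1 h2 hdel
      exact ⟨I, hI.trans (Finset.erase_subset e S), hh⟩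
    push Not at hdel
    obtain ⟨A, hA, hA2⟩ := hdel
    by_cases hcon : ∀ B ⊆ S.erase e, k - 1 ≤ (r₁ (insert e B) - 1) +
        (r₂ (insert e (S.erase e \ B)) - 1)
    · obtain ⟨I, hI, hh1, hh2, hh3⟩ := ih (S.erase e) (k - 1) _ _ hc (h1.contract e e1)
        (h2.contract e e2) hcon
      have heI : e ∉ I := fun h' => by simpa using hI h'
      have b1 : 1 ≤ r₁ (insert e I) := by rw [← e1]; exact h1.mono _ _ (by simp)
      have b2 : 1 ≤ r₂ (insert e I) := by rw [← e2]; exact h2.mono _ _ (by simp)
      refine ⟨insert e I, Finset.insert_subset he (hI.trans (Finset.erase_subset e S)), ?_, ?_, ?_⟩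
      · rw [Finset.card_insert_of_notMem heI]; omega
      · omega
      · omega
    push Not at hcon
    obtain ⟨B, hB, hB2⟩ := hcon
    exfalso
    have heA : e ∉ A := fun h' => by simpa using hA h'
    have heB : e ∉ B := fun h' => by simpa using hB h'
    have b1 : 1 ≤ r₁ (insert e B) := by rw [← e1]; exact h1.mono _ _ (by simp)
    have b2 : 1 ≤ r₂ (insert e (S.erase e \ B)) := by rw [← e2]; exact h2.mono _ _ (by simp)
    have s1 := h1.submod A (insert e B)
    have s2 := h2.submod (S.erase e \ A) (insert e (S.erase e \ B))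
    have t1 : A ∩ insert e B = A ∩ B := by
      ext x; simp only [Finset.mem_inter, Finset.mem_insert]
      constructor
      · rintro ⟨hx, rfl | hx'⟩
        exacts [absurd hx heA, ⟨hx, hx'⟩]
      · exact fun hx => ⟨hx.1, Or.inr hx.2⟩
    have t2 : S.erase e \ A ∪ insert e (S.erase e \ B) = S \ (A ∩ B) := by
      ext x; simp only [Finset.mem_union, Finset.mem_sdiff, Finset.mem_erase, Finset.mem_insert,
        Finset.mem_inter]
      by_cases hx : x = e
      · subst hx; simp [he, heA]
      · simp only [hx, not_false_eq_true, true_and, false_or, ne_eq]; tauto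
    have t3 : (S.erase e \ A) ∩ insert e (S.erase e \ B) = S \ (A ∪ insert e B) := by
      ext x; simp only [Finset.mem_union, Finset.mem_sdiff, Finset.mem_erase, Finset.mem_insert,
        Finset.mem_inter]
      by_cases hx : x = e
      · subst hx; simp
      · simp only [hx, not_false_eq_true, true_and, false_or, ne_eq]; tauto
    rw [t1] at s1
    rw [t2, t3] at s2
    have u1 := h (A ∩ B) ((Finset.inter_subset_left).trans (hA.trans (Finset.erase_subset e S)))
    have u2 := h (A ∪ insert e B) (Finset.union_subset (hA.trans (Finset.erase_subset e S))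
      (Finset.insert_subset he (hB.trans (Finset.erase_subset e S))))
    omega

theorem isRank_finrank_span (K V : Type*) [Field K] [AddCommGroup V] [Module K V]
    [FiniteDimensional K V] (u : ι → V) :
    IsRank fun A : Finset ι => finrank K (Submodule.span K (u '' (A : Set ι))) := by
  refine ⟨by simp, fun A B h => ?_, fun e => ?_, fun A B => ?_⟩
  · exact Submodule.finrank_mono (Submodule.span_mono (Set.image_mono (by exact_mod_cast h)))
  · rw [Finset.coe_singleton, Set.image_singleton]
    exact (finrank_span_le_card {u e}).trans (by simp)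
  · have h1 := Submodule.finrank_sup_add_finrank_inf_eq (Submodule.span K (u '' (A : Set ι)))
      (Submodule.span K (u '' (B : Set ι)))
    have h2 : Submodule.span K (u '' ((A ∪ B : Finset ι) : Set ι)) =
        Submodule.span K (u '' (A : Set ι)) ⊔ Submodule.span K (u '' (B : Set ι)) := by
      rw [Finset.coe_union, Set.image_union, Submodule.span_union]
    have h3 : finrank K (Submodule.span K (u '' ((A ∩ B : Finset ι) : Set ι))) ≤
        finrank K ↥(Submodule.span K (u '' (A : Set ι)) ⊓ Submodule.span K (u '' (B : Set ι))) := by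
      refine Submodule.finrank_mono (le_inf ?_ ?_) <;>
        refine Submodule.span_mono (Set.image_mono ?_)
      · exact_mod_cast Finset.inter_subset_left
      · exact_mod_cast Finset.inter_subset_right
    rw [h2]
    omega

end Rank

end H22VF
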