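import Pool.Agent.H22.VF.Facet
import Pool.Agent.H22.VF.Rank

set_option autoImplicit false

open scoped RealInnerProductSpace
open Module

namespace H22VF

variable {E : Type*} [NormedAddCommGroup E] [InnerProductSpace ℝ E] [FiniteDimensional ℝ E]
  {n : ℕ} (L : Submodule ℤ E) [DiscreteTopology L] (b : Basis (Fin n) ℤ L)

/-- Reduction of the coordinates modulo `p`. -/
noncomputable def red (p : ℕ) : L →ₗ[ℤ] (Fin n → ZMod p) :=
  LinearMap.pi fun i => (Int.castAddHom (ZMod p)).toIntLinearMap ∘ₗ b.coord i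

omit [FiniteDimensional ℝ E] [DiscreteTopology L] [InnerProductSpace ℝ E] in
@[simp] theorem red_apply (p : ℕ) (x : L) (i : Fin n) : red L b p x i = ((b.repr x i : ℤ) : ZMod p) := by
  simp [red]

omit [FiniteDimensional ℝ E] [DiscreteTopology L] [InnerProductSpace ℝ E] in
theorem red_surjective (p : ℕ) : Function.Surjective (red L b p) := by
  intro t
  choose z hz using fun i => ZMod.intCast_surjective (t i)
  refine ⟨∑ i, z i • b i, ?_⟩
  ext i
  rw [red_apply, ← hz i]
  congr 1
  simp [Finsupp.single_apply]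

/-- The preimage of a subspace. -/
noncomputable def pre (p : ℕ) (U : Submodule (ZMod p) (Fin n → ZMod p)) : Submodule ℤ E :=
  ((U.restrictScalars ℤ).comap (red L b p)).map L.subtype

omit [FiniteDimensional ℝ E] [DiscreteTopology L] [InnerProductSpace ℝ E] in
theorem mem_pre (p : ℕ) (U : Submodule (ZMod p) (Fin n → ZMod p)) (x : L) :
    (x : E) ∈ pre L b p U ↔ red L b p x ∈ U := by
  simp [pre]

theorem le_finrank_add (p : ℕ) [Fact p.Prime] (U : Submodule (ZMod p) (Fin n → ZMod p))
    (X : Set E) (hX : X ⊆ L) (h : L ≤ pre L b p U ⊔ Submodule.span ℤ X) :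
    n ≤ finrank (ZMod p) U + finrank ℝ (Submodule.span ℝ X) := by
  have hML : Submodule.span ℤ X ≤ L := Submodule.span_le.2 hX
  have hd : DiscreteTopology (Submodule.span ℤ X) :=
    DiscreteTopology.of_continuous_injective (f := Submodule.inclusion hML)
      (continuous_subtype_val.subtype_mk _) (Submodule.inclusion_injective hML)
  have hr : finrank ℝ (Submodule.span ℝ X) = finrank ℤ (Submodule.span ℤ X) :=
    Real.finrank_eq_int_finrank_of_discrete hd
  let e := Module.finBasis ℤ (Submodule.span ℤ X)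
  let T : Submodule (ZMod p) (Fin n → ZMod p) :=
    Submodule.span (ZMod p) (Set.range fun i => red L b p (Submodule.inclusion hML (e i)))
  have hT : finrank (ZMod p) T ≤ finrank ℤ (Submodule.span ℤ X) := by
    refine (finrank_range_le_card _).trans ?_
    simp
  have hmem : ∀ m : Submodule.span ℤ X, red L b p (Submodule.inclusion hML m) ∈ T := by
    intro m
    rw [← e.sum_repr m, map_sum, map_sum]
    refine T.sum_mem fun i _ => ?_
    rw [map_smul, map_smul]
    have := T.smul_mem ((e.repr m i : ℤ) : ZMod p) (Submodule.subset_span ⟨i, rfl⟩ :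
      red L b p (Submodule.inclusion hML (e i)) ∈ T)
    rwa [← Int.cast_smul_eq_zsmul (ZMod p)]
  have htop : U ⊔ T = ⊤ := by
    rw [eq_top_iff]
    intro t _
    obtain ⟨x, rfl⟩ := red_surjective L b p t
    obtain ⟨d, hd', m, hm, hdm⟩ := Submodule.mem_sup.1 (h x.2)
    have hdL : d ∈ L := by
      have : d = (x : E) - m := by rw [← hdm]; abel
      rw [this]
      exact L.sub_mem x.2 (hML hm)
    have hx : x = (⟨d, hdL⟩ : L) + Submodule.inclusion hML ⟨m, hm⟩ := by
      ext
      simp [hdm]
    rw [hx, map_add]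
    exact Submodule.add_mem_sup ((mem_pre L b p U ⟨d, hdL⟩).1 hd') (hmem ⟨m, hm⟩)
  have h1 : finrank (ZMod p) (⊤ : Submodule (ZMod p) (Fin n → ZMod p)) = n := by simp
  rw [← htop] at h1
  have h2 := Submodule.finrank_add_le_finrank_add_finrank U T
  omega

theorem finrank_add_le (X Y : Set E) (h : ∀ x ∈ X, ∀ y ∈ Y, ⟪x, y⟫ = 0) :
    finrank ℝ (Submodule.span ℝ X) + finrank ℝ (Submodule.span ℝ Y) ≤ finrank ℝ E := by
  have h1 : Submodule.span ℝ Y ≤ (Submodule.span ℝ X)ᗮ := by
    rw [Submodule.span_le]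
    intro y hy
    rw [SetLike.mem_coe, Submodule.mem_orthogonal]
    intro u hu
    induction hu using Submodule.span_induction with
    | mem x hx => exact h x hx y hy
    | zero => simp
    | add a c _ _ ha hc => rw [inner_add_left, ha, hc, add_zero]
    | smul r a _ ha => rw [inner_smul_left, ha, mul_zero]
  have h2 := Submodule.finrank_add_finrank_orthogonal (Submodule.span ℝ X)
  have h3 := Submodule.finrank_mono h1
  omega

/-- The main inequality. -/
theorem main_ineq (hn : finrank ℝ E = n) (p q : ℕ) [Fact p.Prime] [Fact q.Prime]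
    (U : Submodule (ZMod p) (Fin n → ZMod p)) (W : Submodule (ZMod q) (Fin n → ZMod q))
    (h : ∀ f : L, IsFacet L (f : E) → red L b p f ∈ U ∨ red L b q f ∈ W) :
    n ≤ finrank (ZMod p) U + finrank (ZMod q) W := by
  obtain ⟨X, Y, hX, hY, hXY, h1, h2⟩ := exists_orthogonal L (pre L b p U) (pre L b q W)
    fun f hf => (h ⟨f, hf.1⟩ hf).imp (fun h => (mem_pre L b p U ⟨f, hf.1⟩).2 h)
      (fun h => (mem_pre L b q W ⟨f, hf.1⟩).2 h)
  have a1 := le_finrank_add L b p U X hX h1
  have a2 := le_finrank_add L b q W Y hY h2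
  have a3 := finrank_add_le X Y hXY
  omega

/-- There are `n` facet vectors whose reductions modulo `p` and modulo `q` are bases. -/
theorem exists_common (hn : finrank ℝ E = n) (p q : ℕ) [Fact p.Prime] [Fact q.Prime] :
    ∃ f : Fin n → L, (∀ i, IsFacet L (f i : E)) ∧
      Submodule.span (ZMod p) (Set.range fun i => red L b p (f i)) = ⊤ ∧
      Submodule.span (ZMod q) (Set.range fun i => red L b q (f i)) = ⊤ := by
  classical
  let ρ : L → (Fin n → ZMod p) × (Fin n → ZMod q) := fun x => (red L b p x, red L b q x)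
  let S : Finset ((Fin n → ZMod p) × (Fin n → ZMod q)) :=
    Finset.univ.filter fun t => ∃ f : L, IsFacet L (f : E) ∧ ρ f = t
  obtain ⟨I, hIS, hIc, hI1, hI2⟩ := intersection _ S n _ _ rfl
    (isRank_finrank_span (ι := (Fin n → ZMod p) × (Fin n → ZMod q)) (ZMod p) _ Prod.fst)
    (isRank_finrank_span (ι := (Fin n → ZMod p) × (Fin n → ZMod q)) (ZMod q) _ Prod.snd)
    (fun A hA => by
      refine main_ineq L b hn p q _ _ fun f hf => ?_
      have hfS : ρ f ∈ S := Finset.mem_filter.2 ⟨Finset.mem_univ _, f, hf, rfl⟩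
      by_cases hfA : ρ f ∈ A
      · exact Or.inl (Submodule.subset_span ⟨ρ f, hfA, rfl⟩)
      · exact Or.inr (Submodule.subset_span ⟨ρ f, by
          rw [Finset.mem_coe, Finset.mem_sdiff]; exact ⟨hfS, hfA⟩, rfl⟩))
  have hcard : Fintype.card I = Fintype.card (Fin n) := by simp [hIc]
  let e : Fin n ≃ I := (Fintype.equivOfCardEq hcard).symm
  have hex : ∀ i : Fin n, ∃ f : L, IsFacet L (f : E) ∧ ρ f = (e i : _) := fun i =>
    (Finset.mem_filter.1 (hIS (e i).2)).2
  choose f hf hρ using hex
  have himg : (I : Set ((Fin n → ZMod p) × (Fin n → ZMod q))) = Set.range fun i => ρ (f i) := by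
    ext t
    simp only [Finset.mem_coe, Set.mem_range]
    constructor
    · intro ht
      exact ⟨e.symm ⟨t, ht⟩, by rw [hρ]; simp⟩
    · rintro ⟨i, rfl⟩
      rw [hρ]
      exact (e i).2
  refine ⟨f, hf, ?_, ?_⟩
  · apply Submodule.eq_top_of_finrank_eq
    rw [himg, ← Set.range_comp] at hI1
    rw [Module.finrank_fin_fun]
    exact hI1
  · apply Submodule.eq_top_of_finrank_eq
    rw [himg, ← Set.range_comp] at hI2
    rw [Module.finrank_fin_fun]
    exact hI2

end H22VF
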