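import Pool.Agent.H22.VF.Facet

set_option autoImplicit false

open scoped RealInnerProductSpace
open Module

namespace H22VF

section Round

variable {E : Type*} [NormedAddCommGroup E] [InnerProductSpace ℝ E]

theorem round_one (X v : E) (s : ℝ) :
    ∃ n : ℤ, ‖X + ((n : ℝ) - s) • v‖ ^ 2 ≤ ‖X‖ ^ 2 + 4⁻¹ * ‖v‖ ^ 2 := by
  by_contra hcon
  push Not at hcon
  have hA := hcon ⌊s⌋
  have hB := hcon (⌊s⌋ + 1)
  have hf0 := Int.fract_nonneg s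
  have hf1 := (Int.fract_lt_one s).le
  have e1 : ((⌊s⌋ : ℤ) : ℝ) - s = -Int.fract s := by rw [Int.fract]; ring
  have e2 : (((⌊s⌋ + 1 : ℤ) : ℝ)) - s = 1 - Int.fract s := by rw [Int.fract]; push_cast; ring
  rw [e1, norm_add_sq_real, inner_smul_right, norm_smul, mul_pow, Real.norm_eq_abs, sq_abs] at hA
  rw [e2, norm_add_sq_real, inner_smul_right, norm_smul, mul_pow, Real.norm_eq_abs, sq_abs] at hB
  set f := Int.fract s
  set N := ‖v‖ ^ 2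
  have hN : 0 ≤ N := sq_nonneg _
  have h1 : (1 - f) * (4⁻¹ * N) ≤ (1 - f) * (2 * (-f * ⟪X, v⟫) + (-f) ^ 2 * N) :=
    mul_le_mul_of_nonneg_left (by linarith) (by linarith)
  have h2 : f * (4⁻¹ * N) ≤ f * (2 * ((1 - f) * ⟪X, v⟫) + (1 - f) ^ 2 * N) :=
    mul_le_mul_of_nonneg_left (by linarith) hf0
  have h3 : 4⁻¹ * N ≤ f * (1 - f) * N := by nlinarith
  have h4 : f * (1 - f) * N ≤ 4⁻¹ * N := mul_le_mul_of_nonneg_right (by nlinarith [sq_nonneg (f - 2⁻¹)]) hN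
  rcases hf0.eq_or_lt with h | h
  · rw [← h] at hA h3
    nlinarith
  · have h5 : f * (4⁻¹ * N) < f * (2 * ((1 - f) * ⟪X, v⟫) + (1 - f) ^ 2 * N) :=
      mul_lt_mul_of_pos_left (by linarith) h
    nlinarith

theorem round_all : ∀ (d : ℕ) (v : Fin d → E) (s : Fin d → ℝ) (e : E),
    ∃ n : Fin d → ℤ, ‖e + ∑ j, (n j : ℝ) • v j‖ ^ 2 ≤
      ‖e + ∑ j, s j • v j‖ ^ 2 + 4⁻¹ * ∑ j, ‖v j‖ ^ 2 := by
  intro d
  induction d with
  | zero => intro v s e; exact ⟨fun _ => 0, by simp⟩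
  | succ d ih =>
    intro v s e
    obtain ⟨n₀, h₀⟩ := round_one (e + ∑ j, s j • v j) (v 0) (s 0)
    obtain ⟨n, hn⟩ := ih (fun j => v j.succ) (fun j => s j.succ) (e + (n₀ : ℝ) • v 0)
    refine ⟨Fin.cons n₀ n, ?_⟩
    have e1 : e + ∑ j, s j • v j + ((n₀ : ℝ) - s 0) • v 0 =
        e + (n₀ : ℝ) • v 0 + ∑ j : Fin d, s j.succ • v j.succ := by
      rw [Fin.sum_univ_succ, sub_smul]; abel
    have e2 : e + ∑ j, ((Fin.cons n₀ n : Fin (d + 1) → ℤ) j : ℝ) • v j =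
        e + (n₀ : ℝ) • v 0 + ∑ j : Fin d, (n j : ℝ) • v j.succ := by
      rw [Fin.sum_univ_succ]
      simp only [Fin.cons_zero, Fin.cons_succ]
      abel
    rw [e1] at h₀
    rw [e2, Fin.sum_univ_succ (fun j => ‖v j‖ ^ 2)]
    linarith

end Round

variable {E : Type*} [NormedAddCommGroup E] [InnerProductSpace ℝ E]
  [FiniteDimensional ℝ E] (L : Submodule ℤ E) [DiscreteTopology L]

omit [FiniteDimensional ℝ E] [DiscreteTopology L] in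
theorem round_lat {d : ℕ} (v : Fin d → E) (W : Submodule ℝ E) (hW : Submodule.span ℝ (Set.range v) = W)
    (hv : ∀ j, v j ∈ L) (ρ : ℝ) (hρ : ∀ j, ‖v j‖ ≤ ρ) (e u : E) (he : e ∈ L) (hu : u - e ∈ W) :
    ∃ x ∈ L, x - e ∈ W ∧ ‖x‖ ^ 2 ≤ ‖u‖ ^ 2 + d * 4⁻¹ * ρ ^ 2 := by
  rw [← hW, Submodule.mem_span_range_iff_exists_fun] at hu
  obtain ⟨s, hs⟩ := hu
  obtain ⟨n, hn⟩ := round_all d v s e
  have e1 : ∀ j, ((n j : ℝ)) • v j = n j • v j := fun j => Int.cast_smul_eq_zsmul ℝ _ _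
  refine ⟨e + ∑ j, (n j : ℝ) • v j, ?_, ?_, ?_⟩
  · refine L.add_mem he (L.sum_mem fun j _ => ?_)
    rw [e1]
    exact L.smul_mem _ (hv j)
  · rw [add_sub_cancel_left, ← hW]
    exact Submodule.sum_mem _ fun j _ => Submodule.smul_mem _ _ (Submodule.subset_span ⟨j, rfl⟩)
  · rw [hs, add_sub_cancel] at hn
    refine hn.trans ?_
    have : ∑ j, ‖v j‖ ^ 2 ≤ ∑ _j : Fin d, ρ ^ 2 :=
      Finset.sum_le_sum fun j _ => pow_le_pow_left₀ (norm_nonneg _) (hρ j) 2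
    rw [Finset.sum_const, Finset.card_univ, Fintype.card_fin, nsmul_eq_mul] at this
    linarith

/-- Every non-empty subset of a lattice has an element of minimal norm. -/
theorem exists_min_norm (S : Set E) (hS : S ⊆ L) (hne : S.Nonempty) :
    ∃ x ∈ S, ∀ y ∈ S, ‖x‖ ≤ ‖y‖ := by
  obtain ⟨x₀, hx₀⟩ := hne
  have hfin : {w : E | w ∈ S ∧ ‖w‖ ≤ ‖x₀‖}.Finite :=
    (finite_ball L ‖x₀‖).subset fun w hw => ⟨hS hw.1, hw.2⟩
  obtain ⟨x, hx, hmin⟩ := hfin.exists_minimalFor (fun y => ‖y‖) _ ⟨x₀, hx₀, le_rfl⟩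
  refine ⟨x, hx.1, fun y hy => ?_⟩
  rcases le_total ‖y‖ ‖x₀‖ with h | h
  · rcases le_total ‖x‖ ‖y‖ with h' | h'
    · exact h'
    · exact hmin (show y ∈ _ from ⟨hy, h⟩) h'
  · exact hx.2.trans h

end H22VF
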