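import Pool.Agent.H22.VF.Core

set_option autoImplicit false

open scoped RealInnerProductSpace
open Module

namespace H22VF

variable {E : Type*} [NormedAddCommGroup E] [InnerProductSpace ℝ E]
  [FiniteDimensional ℝ E] (L : Submodule ℤ E) [DiscreteTopology L]

/-- The lattice in `W + ℝ x₀` is generated by that in `W` and one facet vector. -/
def Succ (W : Submodule ℝ E) (x₀ : E) : Prop :=
  ∃ g, IsFacet L g ∧ g ∈ W ⊔ Submodule.span ℝ {x₀} ∧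
    ∀ x ∈ L, x ∈ W ⊔ Submodule.span ℝ {x₀} → ∃ m : ℤ, x - m • g ∈ W

omit [FiniteDimensional ℝ E] [DiscreteTopology L] in
/-- Rounding all coordinates but the `i`-th one. -/
theorem round_except {d : ℕ} (v : Fin (d + 1) → E) (W : Submodule ℝ E)
    (hW : Submodule.span ℝ (Set.range v) = W)
    (hv : ∀ j, v j ∈ L) (ρ : ℝ) (hρ : ∀ j, ‖v j‖ ≤ ρ) (i : Fin (d + 1)) (e u : E) (he : e ∈ L)
    (hu : ∃ s : Fin d → ℝ, u - e = ∑ j, s j • v (i.succAbove j)) :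
    ∃ x ∈ L, x - e ∈ W ∧ ‖x‖ ^ 2 ≤ ‖u‖ ^ 2 + d * 4⁻¹ * ρ ^ 2 := by
  obtain ⟨s, hs⟩ := hu
  obtain ⟨x, hxL, hxe, hx⟩ := round_lat L (fun j => v (i.succAbove j))
    (Submodule.span ℝ (Set.range fun j => v (i.succAbove j))) rfl (fun j => hv _) ρ
    (fun j => hρ _) e u he (by
      rw [Submodule.mem_span_range_iff_exists_fun]
      exact ⟨s, hs.symm⟩)
  refine ⟨x, hxL, ?_, hx⟩
  rw [← hW]
  refine Submodule.span_mono ?_ hxe
  rintro _ ⟨j, rfl⟩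
  exact ⟨_, rfl⟩


theorem scalar (r f q N : ℝ) (hr : 0 < r) (hf0 : 0 ≤ f) (hf1 : f < 1) (hN : N ≤ r)
    (hA : 4⁻¹ * r ≤ f * q + f ^ 2 * N) (hB : 4⁻¹ * r ≤ (f - 1) * q + (f - 1) ^ 2 * N) : q = 0 := by
  have h4 : 4⁻¹ * r ≤ f * (1 - f) * N := by
    have h5 := mul_le_mul_of_nonneg_left hA (by linarith : 0 ≤ 1 - f)
    have h6 := mul_le_mul_of_nonneg_left hB hf0
    nlinarith
  have h7 : f * (1 - f) * N ≤ f * (1 - f) * r :=
    mul_le_mul_of_nonneg_left hN (mul_nonneg hf0 (by linarith))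
  have h8 : (f - 2⁻¹) ^ 2 * r ≤ 0 := by nlinarith
  have h9 : (f - 2⁻¹) ^ 2 ≤ 0 := by
    by_contra h
    rw [not_le] at h
    have := mul_pos h hr
    linarith
  have h10 : f = 2⁻¹ := by
    have := le_antisymm h9 (sq_nonneg _)
    have := (pow_eq_zero_iff two_ne_zero).1 this
    linarith
  subst h10
  have h11 : N = r := by nlinarith
  subst h11
  nlinarith

theorem tie (v : Fin 7 → E) (W : Submodule ℝ E) (hW : Submodule.span ℝ (Set.range v) = W)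
    (hv : ∀ j, v j ∈ L) (x₀ : E) (hx₀ : x₀ ∈ L) (hx₀W : x₀ ∉ W)
    (hmin : ∀ x ∈ L, x ∉ W → ‖x₀‖ ≤ ‖x‖) (hvρ : ∀ j, ‖v j‖ ≤ ‖x₀‖) :
    Succ L W x₀ ∨ ((∀ i, ⟪x₀, v i⟫ = 0) ∧ ∃ g y : E, y ∈ L ∧ y ∉ W ∧ ‖y‖ = ‖x₀‖ ∧
      (∃ w ∈ W, g = (2⁻¹ : ℝ) • x₀ + w) ∧ ⟪y, g⟫ = ‖x₀‖ ^ 2) := by
  obtain ⟨φ, c, g, D⟩ := core L v W hW hv x₀ hx₀ hx₀W hmin hvρ (by norm_num)
  by_cases hg : IsFacet L g
  · exact Or.inl ⟨g, hg, D.gW, fun x hx hxW => by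
      obtain ⟨m, -, hm⟩ := D.gen x hx hxW
      exact ⟨m, hm⟩⟩
  right
  have hx₀W' : x₀ ∈ W ⊔ Submodule.span ℝ {x₀} :=
    (le_sup_right : Submodule.span ℝ {x₀} ≤ _) (Submodule.mem_span_singleton_self x₀)
  have hx₀0 : x₀ ≠ 0 := fun h => hx₀W (h ▸ W.zero_mem)
  set ρ := ‖x₀‖ with hρ
  have hρ0 : 0 < ρ := norm_pos_iff.2 hx₀0
  have hρ2 : 0 < ρ ^ 2 := by positivity
  obtain ⟨y, z, hy, hz, hyz, hyg, hzg, hyρ, hzρ, hle, hyW, hzW⟩ := D.dec hg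
  obtain ⟨m₀, hm₀1, hm₀⟩ := D.inv
  rcases hm₀1.eq_or_lt with h1 | h2
  · exfalso
    rw [← h1, Int.cast_one, one_mul] at hm₀
    have := pow_le_pow_left₀ (norm_nonneg _) (D.gmin x₀ hx₀ hx₀W' (by rw [D.one, hm₀])) 2
    linarith
  have hc2 : c ≤ 2⁻¹ := by
    have h3 : (2 : ℝ) ≤ m₀ := by exact_mod_cast (by omega : (2 : ℤ) ≤ m₀)
    have := D.pos
    nlinarith
  have hcx : g - c • x₀ ∈ W := D.mem _ (Submodule.sub_mem _ D.gW (Submodule.smul_mem _ _ hx₀W'))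
    (by rw [map_sub, D.gφ, map_smul, D.one, smul_eq_mul, mul_one, sub_self])
  have hb1 : ‖g‖ ^ 2 ≤ ‖c • x₀‖ ^ 2 + (7 : ℕ) * 4⁻¹ * ρ ^ 2 := by
    obtain ⟨x, hxL, hxg, hx⟩ := round_lat L v W hW hv ρ hvρ g (c • x₀) D.gL
      (by rw [← neg_sub]; exact W.neg_mem hcx)
    exact (D.le x hxL hxg).trans hx
  rw [norm_smul, mul_pow, Real.norm_eq_abs, sq_abs, ← hρ] at hb1
  push_cast at hb1
  have hc : c = 2⁻¹ := by
    have h5 : 4⁻¹ * ρ ^ 2 ≤ c ^ 2 * ρ ^ 2 := by linarith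
    have h6 : 4⁻¹ ≤ c ^ 2 := le_of_mul_le_mul_right h5 hρ2
    have := D.pos
    nlinarith
  rw [hc] at hcx hb1
  have hg2 : ‖g‖ ^ 2 = 2 * ρ ^ 2 := by nlinarith
  have hyn : ‖y‖ ^ 2 = ρ ^ 2 := by linarith
  have hzn : ‖z‖ ^ 2 = ρ ^ 2 := by linarith
  refine ⟨fun i => ?_, g, y, hy, hyW, ?_, ⟨g - (2⁻¹ : ℝ) • x₀, hcx, by abel⟩, ?_⟩
  · -- orthogonality
    obtain ⟨s, hs⟩ : ∃ s : Fin 7 → ℝ, ∑ j, s j • v j = g - (2⁻¹ : ℝ) • x₀ := by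
      rw [← hW, Submodule.mem_span_range_iff_exists_fun] at hcx
      exact hcx
    have hkey : ∀ n : ℤ, 4⁻¹ * ρ ^ 2 ≤ (s i - n) * ⟪x₀, v i⟫ + (s i - n) ^ 2 * ‖v i‖ ^ 2 := by
      intro n
      obtain ⟨x, hxL, hxe, hx⟩ := round_except L v W hW hv ρ hvρ i (g - n • v i)
        ((2⁻¹ : ℝ) • x₀ + (s i - n) • v i) (L.sub_mem D.gL (L.smul_mem _ (hv i)))
        ⟨fun j => -s (i.succAbove j), by
          have h1 := Fin.sum_univ_succAbove (fun j => s j • v j) i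
          rw [hs] at h1
          have h2 : g = (2⁻¹ : ℝ) • x₀ + (s i • v i + ∑ j, s (i.succAbove j) • v (i.succAbove j)) := by
            rw [← h1]; abel
          simp only [neg_smul, Finset.sum_neg_distrib]
          rw [h2, sub_smul, Int.cast_smul_eq_zsmul]
          abel⟩
      have hxg : x - g ∈ W := by
        have : x - g = (x - (g - n • v i)) - n • v i := by abel
        rw [this]
        refine W.sub_mem hxe ?_
        rw [← Int.cast_smul_eq_zsmul ℝ, ← hW]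
        exact Submodule.smul_mem _ _ (Submodule.subset_span ⟨i, rfl⟩)
      have h3 := (D.le x hxL hxg).trans hx
      rw [norm_add_sq_real, norm_smul, norm_smul, mul_pow, mul_pow, inner_smul_left,
        inner_smul_right, Real.norm_eq_abs, Real.norm_eq_abs, sq_abs, sq_abs, hg2, ← hρ] at h3
      simp only [conj_trivial] at h3
      push_cast at h3
      linarith
    have hA := hkey ⌊s i⌋
    have hB := hkey (⌊s i⌋ + 1)
    have hf0 := Int.fract_nonneg (s i)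
    have hf1 := Int.fract_lt_one (s i)
    have e1 : s i - ⌊s i⌋ = Int.fract (s i) := rfl
    have e2 : s i - ((⌊s i⌋ + 1 : ℤ) : ℝ) = Int.fract (s i) - 1 := by
      rw [Int.fract]; push_cast; ring
    rw [e1] at hA
    rw [e2] at hB
    exact scalar _ _ _ _ hρ2 hf0 hf1 (pow_le_pow_left₀ (norm_nonneg _) (hvρ i) 2) hA hB
  · exact (sq_eq_sq₀ (norm_nonneg _) (norm_nonneg _)).1 hyn
  · have h1 : z = g - y := by rw [← hyz]; abel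
    rw [h1, norm_sub_sq_real, hg2, hyn, real_inner_comm] at hzn
    linarith

/-- The step from dimension `7` to dimension `8`. -/
theorem step_seven (v : Fin 7 → E) (W : Submodule ℝ E) (hW : Submodule.span ℝ (Set.range v) = W)
    (hv : ∀ j, v j ∈ L) (x₀ : E) (hx₀ : x₀ ∈ L) (hx₀W : x₀ ∉ W)
    (hmin : ∀ x ∈ L, x ∉ W → ‖x₀‖ ≤ ‖x‖) (hvρ : ∀ j, ‖v j‖ ≤ ‖x₀‖) :
    ∃ x₁ ∈ L, x₁ ∉ W ∧ (∀ x ∈ L, x ∉ W → ‖x₁‖ ≤ ‖x‖) ∧ Succ L W x₁ := by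
  rcases tie L v W hW hv x₀ hx₀ hx₀W hmin hvρ with h | ⟨-, g, y, hy, hyW, hyn, ⟨w, hw, rfl⟩, hyg⟩
  · exact ⟨x₀, hx₀, hx₀W, hmin, h⟩
  rcases tie L v W hW hv y hy hyW (by rw [hyn]; exact hmin) (by rw [hyn]; exact hvρ) with
    h | ⟨h, -⟩
  · exact ⟨y, hy, hyW, by rw [hyn]; exact hmin, h⟩
  exfalso
  have hyw : ⟪y, w⟫ = 0 := by
    rw [← hW, Submodule.mem_span_range_iff_exists_fun] at hw
    obtain ⟨s, rfl⟩ := hw
    rw [inner_sum]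
    exact Finset.sum_eq_zero fun j _ => by rw [inner_smul_right, h j, mul_zero]
  have hx₀0 : x₀ ≠ 0 := fun h => hx₀W (h ▸ W.zero_mem)
  have hρ0 : 0 < ‖x₀‖ := norm_pos_iff.2 hx₀0
  rw [inner_add_right, hyw, inner_smul_right, add_zero] at hyg
  have := real_inner_le_norm y x₀
  rw [hyn] at this
  nlinarith

/-- The step from dimension `d ≤ 6` to dimension `d + 1`. -/
theorem step_small {d : ℕ} (hd : d ≤ 6) (v : Fin d → E) (W : Submodule ℝ E)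
    (hW : Submodule.span ℝ (Set.range v) = W)
    (hv : ∀ j, v j ∈ L) (x₀ : E) (hx₀ : x₀ ∈ L) (hx₀W : x₀ ∉ W)
    (hmin : ∀ x ∈ L, x ∉ W → ‖x₀‖ ≤ ‖x‖) (hvρ : ∀ j, ‖v j‖ ≤ ‖x₀‖) : Succ L W x₀ := by
  obtain ⟨φ, c, g, D⟩ := core L v W hW hv x₀ hx₀ hx₀W hmin hvρ (by omega)
  refine ⟨g, ?_, D.gW, fun x hx hxW => by
      obtain ⟨m, -, hm⟩ := D.gen x hx hxW
      exact ⟨m, hm⟩⟩
  by_contra hg
  have hx₀W' : x₀ ∈ W ⊔ Submodule.span ℝ {x₀} :=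
    (le_sup_right : Submodule.span ℝ {x₀} ≤ _) (Submodule.mem_span_singleton_self x₀)
  have hx₀0 : x₀ ≠ 0 := fun h => hx₀W (h ▸ W.zero_mem)
  set ρ := ‖x₀‖ with hρ
  have hρ0 : 0 < ρ := norm_pos_iff.2 hx₀0
  have hρ2 : 0 < ρ ^ 2 := by positivity
  obtain ⟨y, z, hy, hz, hyz, hyg, hzg, hyρ, hzρ, hle, hyW, hzW⟩ := D.dec hg
  obtain ⟨m₀, hm₀1, hm₀⟩ := D.inv
  rcases hm₀1.eq_or_lt with h1 | h2
  · rw [← h1, Int.cast_one, one_mul] at hm₀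
    have := pow_le_pow_left₀ (norm_nonneg _) (D.gmin x₀ hx₀ hx₀W' (by rw [D.one, hm₀])) 2
    linarith
  have hc2 : c ≤ 2⁻¹ := by
    have h3 : (2 : ℝ) ≤ m₀ := by exact_mod_cast (by omega : (2 : ℤ) ≤ m₀)
    have := D.pos
    nlinarith
  have hcx : g - c • x₀ ∈ W := D.mem _ (Submodule.sub_mem _ D.gW (Submodule.smul_mem _ _ hx₀W'))
    (by rw [map_sub, D.gφ, map_smul, D.one, smul_eq_mul, mul_one, sub_self])
  have hb1 : ‖g‖ ^ 2 ≤ ‖c • x₀‖ ^ 2 + d * 4⁻¹ * ρ ^ 2 := by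
    obtain ⟨x, hxL, hxg, hx⟩ := round_lat L v W hW hv ρ hvρ g (c • x₀) D.gL
      (by rw [← neg_sub]; exact W.neg_mem hcx)
    exact (D.le x hxL hxg).trans hx
  rw [norm_smul, mul_pow, Real.norm_eq_abs, sq_abs, ← hρ] at hb1
  have hd6 : (d : ℝ) ≤ 6 := by exact_mod_cast hd
  have hc4 : c ^ 2 ≤ 4⁻¹ := by have := D.pos; nlinarith
  nlinarith

end H22VF
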